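import Pool.Agent.P.MP_6c8412_lc.Defs

-- part Pool.Agent.P.MP_6c8412_lc.Oper
section

set_option linter.unusedVariables false
set_option linter.unusedSectionVars false

namespace Pool.Agent.P.MP_6c8412_lc

universe u

/-- The Hilbert space of square summable functions on `G`. -/
abbrev SqSum (G : Type u) : Type u := lp (fun _ : G => ℂ) 2

/-- Bounded operators on the space of square summable functions. -/
abbrev Op (G : Type u) : Type u := SqSum G →L[ℂ] SqSum G

section

variable {G : Type u}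

theorem memℓp_comp (e : G ≃ G) (ξ : SqSum G) : Memℓp (fun h => ξ (e h)) 2 :=
  memℓp_gen ((e.summable_iff (f := fun h => ‖ξ h‖ ^ (2 : ENNReal).toReal)).2
    ((lp.memℓp ξ).summable (by norm_num)))

/-- Reindexing along a bijection as a linear map. -/
noncomputable def reixL (e : G ≃ G) : SqSum G →ₗ[ℂ] SqSum G where
  toFun ξ := ⟨fun h => ξ (e h), memℓp_comp e ξ⟩
  map_add' _ _ := rfl
  map_smul' _ _ := rfl

theorem norm_reixL (e : G ≃ G) (ξ : SqSum G) : ‖reixL e ξ‖ = ‖ξ‖ := by
  rw [lp.norm_eq_tsum_rpow (by norm_num), lp.norm_eq_tsum_rpow (by norm_num)]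
  congr 1
  exact e.tsum_eq (fun h => ‖ξ h‖ ^ (2 : ENNReal).toReal)

/-- Reindexing along a bijection. -/
noncomputable def reix (e : G ≃ G) : Op G :=
  (reixL e).mkContinuous 1 (fun ξ => by rw [norm_reixL, one_mul])

@[simp] theorem reix_apply (e : G ≃ G) (ξ : SqSum G) (h : G) : reix e ξ h = ξ (e h) := rfl

theorem norm_reix (e : G ≃ G) (ξ : SqSum G) : ‖reix e ξ‖ = ‖ξ‖ := norm_reixL e ξ

theorem star_reix (e : G ≃ G) : star (reix e) = reix e.symm := by
  symm
  rw [ContinuousLinearMap.star_eq_adjoint, ContinuousLinearMap.eq_adjoint_iff]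
  intro x y
  rw [lp.inner_eq_tsum, lp.inner_eq_tsum, ← e.tsum_eq]
  simp

theorem op_ext {S T : Op G} (h : ∀ ξ g, S ξ g = T ξ g) : S = T :=
  ContinuousLinearMap.ext fun ξ => lp.ext (funext (h ξ))

variable [Group G]

/-- Left translation. -/
noncomputable def lam (g : G) : Op G := reix (Equiv.mulLeft g⁻¹)

/-- Right translation. -/
noncomputable def rho (g : G) : Op G := reix (Equiv.mulRight g)

@[simp] theorem lam_apply (g : G) (ξ : SqSum G) (h : G) : lam g ξ h = ξ (g⁻¹ * h) := rfl

@[simp] theorem rho_apply (g : G) (ξ : SqSum G) (h : G) : rho g ξ h = ξ (h * g) := rfl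

theorem star_lam (g : G) : star (lam g) = lam g⁻¹ := by
  rw [lam, star_reix]
  exact op_ext fun ξ h => by simp

theorem star_rho (g : G) : star (rho g) = rho g⁻¹ := by
  rw [rho, star_reix]
  exact op_ext fun ξ h => by simp

theorem lam_mul (g h : G) : lam (g * h) = lam g * lam h :=
  op_ext fun ξ k => by simp [mul_assoc]

theorem lam_one : lam (1 : G) = 1 := op_ext fun ξ k => by simp

theorem commute_rho_lam (g h : G) : Commute (rho g) (lam h) :=
  op_ext fun ξ k => by simp [mul_assoc]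

open Classical in
/-- The point mass at `g`. -/
noncomputable def dl (g : G) : SqSum G := lp.single 2 g (1 : ℂ)

open Classical in
theorem dl_apply (g h : G) : dl g h = if h = g then 1 else 0 := by
  simp [dl, lp.single_apply, Pi.single_apply]

theorem norm_dl (g : G) : ‖dl g‖ = 1 := by
  classical
  rw [dl, lp.norm_single (by norm_num), norm_one]

theorem inner_dl (g : G) (ξ : SqSum G) : inner ℂ (dl g) ξ = ξ g := by
  classical
  rw [dl, lp.inner_single_left]
  simp

variable (G) in
/-- The group von Neumann algebra. -/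
def groupVN : Set (Op G) := translVN (dl (G := G))

variable (G) in
/-- The canonical trace. -/
noncomputable def groupTr (T : Op G) : ℂ := inner ℂ (dl (1 : G)) (T (dl 1))

theorem groupVal_eq (σ : OpForm 0) : groupVal G σ = formVal (groupVN G) (groupTr G) σ ![] := rfl

theorem groupTr_eq (T : Op G) : groupTr G T = T (dl 1) 1 := by
  rw [← inner_dl]
  rfl

theorem rho_dl (g : G) : rho g⁻¹ (dl 1) = dl g :=
  lp.ext (funext fun h => by
    rw [rho_apply, dl_apply, dl_apply]; by_cases e : h = g <;> simp [mul_inv_eq_one, e])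

theorem lam_dl' (g k : G) : lam g (dl k) = dl (g * k) :=
  lp.ext (funext fun h => by
    rw [lam_apply, dl_apply, dl_apply]
    by_cases e : h = g * k
    · simp [e]
    · rw [if_neg e, if_neg (fun e' => e (inv_mul_eq_iff_eq_mul.1 e'))])

theorem lam_dl (g : G) : lam g (dl 1) = dl g := by rw [lam_dl', mul_one]

variable (G) in
/-- The commutant of the right translations. -/
noncomputable def Mcom : StarSubalgebra ℂ (Op G) where
  carrier := {T | ∀ g : G, Commute (rho g) T}
  mul_mem' := fun ha hb g => (ha g).mul_right (hb g)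
  add_mem' := fun ha hb g => (ha g).add_right (hb g)
  algebraMap_mem' := fun r g => (Algebra.commutes r (rho g)).symm
  star_mem' := fun {T} hT g => by
    have := (hT g⁻¹).star_star
    rwa [star_rho, inv_inv] at this

theorem mem_Mcom {T : Op G} : T ∈ Mcom G ↔ ∀ g : G, Commute (rho g) T := Iff.rfl

theorem lam_mem_Mcom (g : G) : lam g ∈ Mcom G := fun h => commute_rho_lam h g

theorem isClosed_Mcom : IsClosed (Mcom G : Set (Op G)) := by
  have : (Mcom G : Set (Op G)) = ⋂ g : G, {T | rho g * T = T * rho g} := by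
    ext T
    simp only [Set.mem_iInter]
    rfl
  rw [this]
  exact isClosed_iInter fun g => isClosed_eq (by fun_prop) (by fun_prop)

theorem leftSet_eq : {U : Op G | ∃ g : G, ∀ h, U (dl h) = dl (g * h)} = Set.range lam := by
  classical
  ext U
  refine ⟨fun ⟨g, hg⟩ => ⟨g, ?_⟩, fun ⟨g, hg⟩ => ⟨g, fun h => hg ▸ lam_dl' g h⟩⟩
  refine lp.ext_continuousLinearMap (by norm_num) fun h => ?_
  ext1
  exact (lam_dl' g h).trans (hg h).symm

theorem span_le_Mcom {T : Op G} (hT : T ∈ Submodule.span ℂ (Set.range (lam (G := G)))) :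
    T ∈ Mcom G := by
  induction hT using Submodule.span_induction with
  | mem x hx => obtain ⟨g, rfl⟩ := hx; exact lam_mem_Mcom g
  | zero => exact zero_mem _
  | add x y _ _ hx hy => exact add_mem hx hy
  | smul c x _ hx => exact SMulMemClass.smul_mem c hx

theorem mem_groupVN_of_span {T : Op G} (hT : T ∈ Submodule.span ℂ (Set.range (lam (G := G)))) :
    T ∈ groupVN G := by
  rw [← leftSet_eq] at hT
  exact subset_closure ⟨T, hT, rfl⟩

theorem groupVN_subset {T : Op G} (hT : T ∈ groupVN G) : T ∈ Mcom G := by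
  intro g
  refine op_ext fun ξ h => ?_
  have hc : IsClosed {A : SqSum G →WOT[ℂ] SqSum G |
      lp.evalCLM ℂ (fun _ : G => ℂ) 2 (h * g) (A ξ) =
        lp.evalCLM ℂ (fun _ : G => ℂ) 2 h (A (rho g ξ))} :=
    isClosed_eq (ContinuousLinearMapWOT.continuous_dual_apply _ _)
      (ContinuousLinearMapWOT.continuous_dual_apply _ _)
  have := (hc.closure_subset_iff (s := ContinuousLinearMapWOT.ofCLM ''
    (Submodule.span ℂ {U : Op G | ∃ g : G, ∀ h, U (dl h) = dl (g * h)} : Set (Op G)))).2 (by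
      rintro _ ⟨S, hS, rfl⟩
      rw [leftSet_eq] at hS
      have h1 := congrArg (fun U : Op G => U ξ h) (span_le_Mcom hS g).eq
      exact h1) hT
  exact this

/-- The trace norm of exponent two. -/
noncomputable def n2 (T : Op G) : ℝ := ‖T (dl 1)‖

theorem n2_nonneg (T : Op G) : 0 ≤ n2 T := norm_nonneg _

theorem n2_mul_le (S T : Op G) : n2 (S * T) ≤ ‖S‖ * n2 T := S.le_opNorm _

theorem n2_le (T : Op G) : n2 T ≤ ‖T‖ := by
  have := T.le_opNorm (dl 1)
  rwa [norm_dl, mul_one] at this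

theorem n2_add_le (S T : Op G) : n2 (S + T) ≤ n2 S + n2 T := norm_add_le _ _

theorem n2_neg (T : Op G) : n2 (-T) = n2 T := norm_neg _

theorem n2_sub_comm (S T : Op G) : n2 (S - T) = n2 (T - S) := by
  rw [← n2_neg, neg_sub]

theorem n2_smul (c : ℂ) (T : Op G) : n2 (c • T) = ‖c‖ * n2 T := norm_smul c (T (dl 1))

theorem n2_star {T : Op G} (hT : T ∈ Mcom G) : n2 (star T) = n2 T := by
  have : star T (dl 1) = star (reix (Equiv.inv G) (T (dl 1))) := by
    refine lp.ext (funext fun g => ?_)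
    rw [← inner_dl, ContinuousLinearMap.star_eq_adjoint, ContinuousLinearMap.adjoint_inner_right,
      ← inner_conj_symm, inner_dl, ← rho_dl g]
    have h1 := congrArg (fun U : Op G => U (dl 1) 1) (hT g⁻¹).eq
    simp only [mul_apply_eq_comp, rho_apply, one_mul] at h1
    rw [← h1]
    rfl
  rw [n2, this, norm_star, norm_reix, n2]

theorem n2_mul_le' {S T : Op G} (hS : S ∈ Mcom G) (hT : T ∈ Mcom G) :
    n2 (S * T) ≤ n2 S * ‖T‖ := by
  rw [← n2_star (mul_mem hS hT), star_mul, ← n2_star hS, ← norm_star T, mul_comm]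
  exact n2_mul_le _ _

theorem norm_groupTr_le (T : Op G) : ‖groupTr G T‖ ≤ n2 T := by
  rw [groupTr_eq]
  exact lp.norm_apply_le_norm (by norm_num) _ _

theorem groupTr_star_mul (T : Op G) : (groupTr G (star T * T)).re = n2 T ^ 2 := by
  have : groupTr G (star T * T) = inner ℂ (dl (1 : G)) ((star T * T) (dl 1)) := rfl
  rw [this, mul_apply_eq_comp, ContinuousLinearMap.star_eq_adjoint,
    ContinuousLinearMap.adjoint_inner_right, n2, ← inner_self_eq_norm_sq (𝕜 := ℂ)]
  rfl

theorem groupTr_add (S T : Op G) : groupTr G (S + T) = groupTr G S + groupTr G T := by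
  simp only [groupTr_eq]
  rfl

theorem groupTr_sub (S T : Op G) : groupTr G (S - T) = groupTr G S - groupTr G T := by
  simp only [groupTr_eq]
  rfl

theorem groupTr_smul (c : ℂ) (T : Op G) : groupTr G (c • T) = c * groupTr G T := by
  simp only [groupTr_eq]
  rfl

theorem groupTr_zero : groupTr G 0 = 0 := by
  simp only [groupTr_eq]
  rfl

theorem mem_closure_span_dl (ξ : SqSum G) :
    ξ ∈ closure ((fun T : Op G => T (dl 1)) ''
      (Submodule.span ℂ (Set.range (lam (G := G))) : Set (Op G))) := by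
  classical
  refine mem_closure_of_tendsto (lp.hasSum_single (by norm_num) ξ)
    (Filter.Eventually.of_forall fun s => ⟨∑ g ∈ s, ξ g • lam g, ?_, ?_⟩)
  · exact Submodule.sum_mem _ fun g _ =>
      Submodule.smul_mem _ _ (Submodule.subset_span ⟨g, rfl⟩)
  · simp only [sum_apply, smul_apply, lam_dl]
    refine Finset.sum_congr rfl fun g _ => ?_
    rw [dl, ← lp.single_smul, smul_eq_mul, mul_one]

end

end Pool.Agent.P.MP_6c8412_lc
end

-- part Pool.Agent.P.MP_6c8412_lc.Kaplansky
section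

set_option linter.unusedVariables false
set_option linter.unusedSectionVars false

namespace Pool.Agent.P.MP_6c8412_lc

universe u

section abstract

variable {A : Type u} [CStarAlgebra A] [PartialOrder A] [StarOrderedRing A]

theorem exists_inv_one_add {b : A} (hb : 0 ≤ b) :
    ∃ V : A, V * (1 + b) = 1 ∧ (1 + b) * V = 1 ∧ star V = V ∧
      ∀ S : StarSubalgebra ℂ A, IsClosed (S : Set A) → b ∈ S → V ∈ S := by
  have hu : IsUnit (1 + b) := CStarAlgebra.isUnit_of_le 1 (le_add_of_nonneg_right hb)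
  have h1 : (↑hu.unit⁻¹ : A) * (1 + b) = 1 := hu.val_inv_mul
  have h2 : (1 + b) * (↑hu.unit⁻¹ : A) = 1 := hu.mul_val_inv
  have hs : star (1 + b) = 1 + b := by rw [star_add, star_one, (IsSelfAdjoint.of_nonneg hb).star_eq]
  refine ⟨_, h1, h2, ?_, fun S hS hbS => ?_⟩
  · have h3 := congrArg star h2
    rw [star_mul, hs, star_one] at h3
    exact left_inv_eq_right_inv h3 h2
  · have h4 : IsUnit (⟨1 + b, add_mem (one_mem S) hbS⟩ : S) := S.coe_isUnit.1 hu
    obtain ⟨W, hW⟩ := h4.exists_left_inv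
    have h5 : (W : A) * (1 + b) = 1 := congrArg Subtype.val hW
    rw [← left_inv_eq_right_inv h5 h2]
    exact W.2

theorem norm_le_one_of_star_mul {x : A} (h : x * star x ≤ 1) : ‖x‖ ≤ 1 := by
  have h1 := (CStarAlgebra.norm_le_one_iff_of_nonneg _ (mul_star_self_nonneg x)).2 h
  rw [CStarRing.norm_self_mul_star] at h1
  nlinarith [norm_nonneg x]

theorem exists_resolvent (a : A) :
    ∃ V : A, V * (1 + a * star a) = 1 ∧ ‖V‖ ≤ 1 ∧ ‖(2 : ℂ) • (V * a)‖ ≤ 1 ∧
      ∀ S : StarSubalgebra ℂ A, IsClosed (S : Set A) → a ∈ S → V ∈ S := by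
  have hb := mul_star_self_nonneg a
  obtain ⟨V, h1, h2, h3, h4⟩ := exists_inv_one_add hb
  set b := a * star a with hbdef
  have hbs : star b = b := (IsSelfAdjoint.of_nonneg hb).star_eq
  have e1 : V * ((1 + b) * (1 + b)) * V = 1 := by
    rw [← mul_assoc, h1, one_mul, h2]
  refine ⟨V, h1, norm_le_one_of_star_mul ?_, norm_le_one_of_star_mul ?_,
    fun S hS ha => h4 S hS (mul_mem ha (star_mem ha))⟩
  · rw [← sub_nonneg, h3]
    have h5 : 0 ≤ b + b + star b * b := add_nonneg (add_nonneg hb hb) (star_mul_self_nonneg b)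
    have h6 := star_left_conjugate_nonneg h5 V
    rw [h3, hbs] at h6
    refine h6.trans_eq ?_
    rw [← e1]
    noncomm_ring
  · rw [← sub_nonneg]
    have h6 := star_left_conjugate_nonneg (star_mul_self_nonneg (1 - b)) V
    rw [h3, star_sub, star_one, hbs] at h6
    refine h6.trans_eq ?_
    have e2 : ((2 : ℂ) • (V * a)) * star ((2 : ℂ) • (V * a)) = 4 * (V * b * V) := by
      rw [two_smul, star_add, star_mul, h3, hbdef]
      noncomm_ring
    rw [e2]
    nth_rewrite 3 [← e1]
    noncomm_ring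

theorem exists_preimage {T : A} (hT : ‖T‖ ≤ 1) :
    ∃ S W : A, (1 + star S * S) * W = 1 ∧ (2 : ℂ) • (S * W) = T ∧
      ∀ x : A, Commute x T → Commute x (star T) → Commute x S ∧ Commute x W := by
  have h0 : 0 ≤ 1 - star T * T := by
    rw [sub_nonneg, ← CStarAlgebra.norm_le_one_iff_of_nonneg _ (star_mul_self_nonneg T),
      CStarRing.norm_star_mul_self]
    nlinarith [norm_nonneg T]
  set R := CFC.sqrt (1 - star T * T) with hR
  have hR0 : 0 ≤ R := CFC.sqrt_nonneg _
  have hR2 : R * R = 1 - star T * T := CFC.sqrt_mul_sqrt_self _ h0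
  obtain ⟨P, h1, h2, h3, -⟩ := exists_inv_one_add hR0
  refine ⟨T * P, (2 : ℂ)⁻¹ • (1 + R), ?_, ?_, fun x hx hx' => ?_⟩
  · have e1 : star (T * P) * (T * P) = P * (1 - R) := by
      have : star T * T = (1 - R) * (1 + R) := by
        rw [← sub_sub_cancel 1 (star T * T), ← hR2]
        noncomm_ring
      rw [star_mul, h3, mul_assoc, ← mul_assoc (star T), this, mul_assoc (1 - R), h2, mul_one]
    have e2 : 1 + P * (1 - R) = (2 : ℂ) • P := by
      nth_rewrite 1 [← h1]
      rw [two_smul]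
      noncomm_ring
    rw [e1, e2, smul_mul_smul_comm, h1]
    simp
  · rw [mul_smul_comm, smul_smul, mul_assoc, h1]
    simp
  · have c1 : Commute x R :=
      (Commute.cfcₙ_nnreal ((Commute.one_right x).sub_right (hx'.mul_right hx)).symm _).symm
    have c2 : Commute x (1 + R) := (Commute.one_right x).add_right c1
    have c3 : Commute x P := by
      calc x * P = P * (1 + R) * x * P := by rw [h1, one_mul]
        _ = P * x * ((1 + R) * P) := by rw [mul_assoc P, ← c2.eq]; noncomm_ring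
        _ = P * x := by rw [h2, mul_one]
    exact ⟨hx.mul_right c3, c2.smul_right _⟩

end abstract

variable {G : Type u} [Group G]

variable (G) in
/-- The span of the left translations as a star subalgebra. -/
noncomputable def spanAlg : StarSubalgebra ℂ (Op G) where
  carrier := Submodule.span ℂ (Set.range (lam (G := G)))
  mul_mem' := fun {a b} ha hb => by
    induction ha using Submodule.span_induction with
    | mem x hx =>
      induction hb using Submodule.span_induction with
      | mem y hy =>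
        obtain ⟨g, rfl⟩ := hx
        obtain ⟨h, rfl⟩ := hy
        exact Submodule.subset_span ⟨g * h, lam_mul g h⟩
      | zero => rw [mul_zero]; exact Submodule.zero_mem _
      | add y z _ _ hy hz => rw [mul_add]; exact Submodule.add_mem _ hy hz
      | smul c y _ hy => rw [mul_smul_comm]; exact Submodule.smul_mem _ _ hy
    | zero => rw [zero_mul]; exact Submodule.zero_mem _
    | add y z _ _ hy hz => rw [add_mul]; exact Submodule.add_mem _ hy hz
    | smul c y _ hy => rw [smul_mul_assoc]; exact Submodule.smul_mem _ _ hy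
  add_mem' := fun ha hb => Submodule.add_mem _ ha hb
  algebraMap_mem' := fun r => by
    rw [Algebra.algebraMap_eq_smul_one]
    exact Submodule.smul_mem _ _ (Submodule.subset_span ⟨1, lam_one⟩)
  star_mem' := fun {a} ha => by
    induction ha using Submodule.span_induction with
    | mem x hx =>
      obtain ⟨g, rfl⟩ := hx
      exact Submodule.subset_span ⟨g⁻¹, (star_lam g).symm⟩
    | zero => rw [star_zero]; exact Submodule.zero_mem _
    | add y z _ _ hy hz => rw [star_add]; exact Submodule.add_mem _ hy hz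
    | smul c y _ hy => rw [star_smul]; exact Submodule.smul_mem _ _ hy

theorem kaplansky {T : Op G} (hM : T ∈ Mcom G) (hT : ‖T‖ ≤ 1) {ε : ℝ} (hε : 0 < ε) :
    ∃ b ∈ closure (Submodule.span ℂ (Set.range (lam (G := G))) : Set (Op G)),
      ‖b‖ ≤ 1 ∧ n2 (b - T) < ε := by
  obtain ⟨S, W, h1, h2, h3⟩ := exists_preimage hT
  have hS : S ∈ Mcom G := fun g => (h3 _ (hM g) (star_mem hM g)).1
  have hW : W ∈ Mcom G := fun g => (h3 _ (hM g) (star_mem hM g)).2
  have hC : 0 < 2 * ‖W‖ + ‖S * W‖ + 1 := by positivity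
  obtain ⟨_, ⟨a, ha, rfl⟩, hd⟩ := Metric.mem_closure_iff.1 (mem_closure_span_dl (S (dl 1))) _
    (div_pos hε hC)
  have haM := span_le_Mcom ha
  have hd' : n2 (a - S) < ε / (2 * ‖W‖ + ‖S * W‖ + 1) := by
    rw [dist_comm, dist_eq_norm] at hd
    exact hd
  obtain ⟨V, v1, v2, v3, v4⟩ := exists_resolvent a
  have hV : V ∈ Mcom G := v4 _ isClosed_Mcom haM
  have hcl : V ∈ (spanAlg G).topologicalClosure :=
    v4 _ (StarSubalgebra.isClosed_topologicalClosure _) (subset_closure ha)
  refine ⟨(2 : ℂ) • (V * a), ?_, v3, ?_⟩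
  · exact SMulMemClass.smul_mem (2 : ℂ) (mul_mem hcl (subset_closure ha :
      a ∈ (spanAlg G).topologicalClosure))
  · have e : (2 : ℂ) • (V * a) - T = (2 : ℂ) • (V * ((a - S) * W)) +
        ((2 : ℂ) • (V * a)) * (star (S - a) * (S * W)) := by
      have e1 : V * a = V * a * ((1 + star S * S) * W) := by rw [h1, mul_one]
      have e2 : S * W = V * (1 + a * star a) * (S * W) := by rw [v1, one_mul]
      rw [← h2, star_sub]
      nth_rewrite 1 [e1, e2]
      simp only [two_smul]
      noncomm_ring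
    have haS : a - S ∈ Mcom G := sub_mem haM hS
    have hSa : S - a ∈ Mcom G := sub_mem hS haM
    have hn := n2_nonneg (a - S)
    have b1 : n2 ((2 : ℂ) • (V * ((a - S) * W))) ≤ 2 * (n2 (a - S) * ‖W‖) := by
      rw [n2_smul]
      have := (n2_mul_le V ((a - S) * W)).trans (mul_le_mul v2 (n2_mul_le' haS hW)
        (n2_nonneg _) zero_le_one)
      simpa using this
    have b2 : n2 (((2 : ℂ) • (V * a)) * (star (S - a) * (S * W))) ≤ n2 (a - S) * ‖S * W‖ := by
      have := (n2_mul_le ((2 : ℂ) • (V * a)) (star (S - a) * (S * W))).trans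
        (mul_le_mul v3 (n2_mul_le' (star_mem hSa) (mul_mem hS hW)) (n2_nonneg _) zero_le_one)
      rwa [one_mul, n2_star hSa, n2_sub_comm] at this
    rw [e]
    refine (n2_add_le _ _).trans_lt ?_
    rw [lt_div_iff₀ hC] at hd'
    nlinarith

end Pool.Agent.P.MP_6c8412_lc
end

-- part Pool.Agent.P.MP_6c8412_lc.Logic
section

set_option linter.unusedVariables false

namespace Pool.Agent.P.MP_6c8412_lc

open FirstOrder Language

universe u

/-- Predicates on tuples, uniformly in the group. -/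
abbrev Pr (α : Type) : Type (u + 1) := ∀ (G : Type u) [Group G], (α → G) → Prop

/-- Classes of groups. -/
abbrev Cls : Type (u + 1) := ∀ (G : Type u) [Group G], Prop

/-- Functions given by a term. -/
def Tm {α : Type} (F : ∀ (G : Type u) [Group G], (α → G) → G) : Prop :=
  ∃ t : grpLang.Term α, ∀ (G : Type u) [Group G] (v : α → G), F G v = t.realize v

theorem funMap_unit (G : Type u) [Group G] (v : Fin 0 → G) :
    Structure.funMap (L := grpLang) GrpSymb.unit v = 1 := rfl

theorem funMap_inverse (G : Type u) [Group G] (v : Fin 1 → G) :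
    Structure.funMap (L := grpLang) GrpSymb.inverse v = (v 0)⁻¹ := rfl

theorem funMap_product (G : Type u) [Group G] (v : Fin 2 → G) :
    Structure.funMap (L := grpLang) GrpSymb.product v = v 0 * v 1 := rfl

namespace Tm

variable {α β : Type}

theorem var (a : α) : Tm.{u} (fun _ _ (v : α → _) => v a) :=
  ⟨Term.var a, fun _ _ _ => rfl⟩

theorem one : Tm.{u} (fun _ _ (_ : α → _) => 1) :=
  ⟨Term.func (L := grpLang) GrpSymb.unit ![], fun _ _ _ => rfl⟩

theorem inv {F : ∀ (G : Type u) [Group G], (α → G) → G} (h : Tm F) :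
    Tm (fun G _ v => (F G v)⁻¹) := by
  obtain ⟨t, ht⟩ := h
  exact ⟨Term.func (L := grpLang) GrpSymb.inverse ![t], fun G _ v => by beta_reduce; rw [ht]; rfl⟩

theorem mul {F E : ∀ (G : Type u) [Group G], (α → G) → G} (h : Tm F) (h' : Tm E) :
    Tm (fun G _ v => F G v * E G v) := by
  obtain ⟨t, ht⟩ := h
  obtain ⟨s, hs⟩ := h'
  exact ⟨Term.func (L := grpLang) GrpSymb.product ![t, s], fun G _ v => by
    beta_reduce; rw [ht, hs]; rfl⟩

theorem congr {F E : ∀ (G : Type u) [Group G], (α → G) → G} (h : Tm F)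
    (e : ∀ (G : Type u) [Group G] (v : α → G), E G v = F G v) : Tm E := by
  obtain ⟨t, ht⟩ := h
  exact ⟨t, fun G _ v => (e G v).trans (ht G v)⟩

theorem pow {F : ∀ (G : Type u) [Group G], (α → G) → G} (h : Tm F) (n : ℕ) :
    Tm (fun G _ v => F G v ^ n) := by
  induction n with
  | zero => exact one.congr (fun G _ v => pow_zero _)
  | succ n ih => exact (ih.mul h).congr (fun G _ v => pow_succ _ _)

theorem lift (w : FreeGroup α) : Tm.{u} (fun _ _ (v : α → _) => FreeGroup.lift v w) := by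
  induction w using FreeGroup.induction_on with
  | C1 => exact one.congr (fun G _ v => map_one _)
  | of a => exact (var a).congr (fun G _ v => FreeGroup.lift_apply_of)
  | inv_of a ih => exact ih.inv.congr (fun G _ v => map_inv _ _)
  | mul a b ha hb => exact (ha.mul hb).congr (fun G _ v => map_mul _ _ _)

end Tm

theorem term_eq_lift {α : Type} (t : grpLang.Term α) :
    ∃ w : FreeGroup α, ∀ (G : Type u) [Group G] (v : α → G),
      t.realize v = FreeGroup.lift v w := by
  induction t with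
  | var a => exact ⟨FreeGroup.of a, fun G _ v => by simp⟩
  | func f ts ih =>
    choose w hw using ih
    cases f with
    | unit => exact ⟨1, fun G _ v => by rw [map_one]; rfl⟩
    | inverse => exact ⟨(w 0)⁻¹, fun G _ v => by rw [map_inv, ← hw]; rfl⟩
    | product => exact ⟨w 0 * w 1, fun G _ v => by rw [map_mul, ← hw, ← hw]; rfl⟩

/-- Predicates uniformly definable in the groups of the class `C` (without quantifiers if
`b` is true). -/
def Df (b : Bool) (C : Cls.{u}) {α : Type} (R : Pr.{u} α) : Prop :=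
  ∃ φ : grpLang.Formula α, (b = true → BoundedFormula.IsQF φ) ∧
    ∀ (G : Type u) [Group G], C G → ∀ v : α → G, R G v ↔ φ.Realize v

namespace Df

variable {b : Bool} {C : Cls.{u}} {α β : Type}

theorem congr {R S : Pr.{u} α} (h : Df b C R)
    (e : ∀ (G : Type u) [Group G], C G → ∀ v : α → G, S G v ↔ R G v) : Df b C S := by
  obtain ⟨φ, h1, h2⟩ := h
  exact ⟨φ, h1, fun G _ hG v => (e G hG v).trans (h2 G hG v)⟩

theorem eq {F E : ∀ (G : Type u) [Group G], (α → G) → G} (h : Tm F) (h' : Tm E) :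
    Df b C (fun G _ v => F G v = E G v) := by
  obtain ⟨t, ht⟩ := h
  obtain ⟨s, hs⟩ := h'
  exact ⟨Term.equal t s, fun _ => (BoundedFormula.IsAtomic.equal _ _).isQF, fun G _ _ v => by
    beta_reduce; rw [Formula.realize_equal, ht, hs]⟩

theorem not {R : Pr.{u} α} (h : Df b C R) : Df b C (fun G _ v => ¬ R G v) := by
  obtain ⟨φ, h1, h2⟩ := h
  exact ⟨φ.not, fun hb => (h1 hb).not, fun G _ hG v => by
    beta_reduce; rw [Formula.realize_not, h2 G hG]⟩

theorem ne {F E : ∀ (G : Type u) [Group G], (α → G) → G} (h : Tm F) (h' : Tm E) :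
    Df b C (fun G _ v => F G v ≠ E G v) := (eq h h').not

theorem and {R S : Pr.{u} α} (h : Df b C R) (h' : Df b C S) :
    Df b C (fun G _ v => R G v ∧ S G v) := by
  obtain ⟨φ, h1, h2⟩ := h
  obtain ⟨ψ, h3, h4⟩ := h'
  exact ⟨φ ⊓ ψ, fun hb => (h1 hb).inf (h3 hb), fun G _ hG v => by
    beta_reduce; rw [Formula.realize_inf, h2 G hG, h4 G hG]⟩

theorem or {R S : Pr.{u} α} (h : Df b C R) (h' : Df b C S) :
    Df b C (fun G _ v => R G v ∨ S G v) :=
  (h.not.and h'.not).not.congr (fun G _ _ v => by tauto)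

theorem imp {R S : Pr.{u} α} (h : Df b C R) (h' : Df b C S) :
    Df b C (fun G _ v => R G v → S G v) :=
  (h.and h'.not).not.congr (fun G _ _ v => by tauto)

theorem iff {R S : Pr.{u} α} (h : Df b C R) (h' : Df b C S) :
    Df b C (fun G _ v => R G v ↔ S G v) :=
  ((h.imp h').and (h'.imp h)).congr (fun G _ _ v => by tauto)

theorem const (p : Prop) : Df b C (fun _ _ (_ : α → _) => p) := by
  by_cases hp : p
  · exact (eq Tm.one Tm.one).congr (fun G _ _ v => by simp [hp])
  · exact (eq Tm.one Tm.one).not.congr (fun G _ _ v => by simp [hp])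

theorem forall_finset {κ : Type} (s : Finset κ) {R : κ → Pr.{u} α} (h : ∀ k, Df b C (R k)) :
    Df b C (fun G _ v => ∀ k ∈ s, R k G v) := by
  classical
  induction s using Finset.induction_on with
  | empty => exact (const True).congr (fun G _ _ v => by simp)
  | insert a s _ ih => exact ((h a).and ih).congr (fun G _ _ v => by simp)

theorem forall_fin {κ : Type} [Finite κ] {R : κ → Pr.{u} α} (h : ∀ k, Df b C (R k)) :
    Df b C (fun G _ v => ∀ k, R k G v) := by
  have := Fintype.ofFinite κ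
  exact (forall_finset Finset.univ h).congr (fun G _ _ v => by simp)

theorem exists_fin {κ : Type} [Finite κ] {R : κ → Pr.{u} α} (h : ∀ k, Df b C (R k)) :
    Df b C (fun G _ v => ∃ k, R k G v) :=
  (forall_fin (fun k => (h k).not)).not.congr (fun G _ _ v => by simp)

theorem funEq {κ : Type} [Finite κ] {F E : ∀ (G : Type u) [Group G], (α → G) → κ → G}
    (h : ∀ k, Tm (fun G _ v => F G v k)) (h' : ∀ k, Tm (fun G _ v => E G v k)) :
    Df b C (fun G _ v => F G v = E G v) :=
  (forall_fin (fun k => eq (h k) (h' k))).congr (fun G _ _ v => funext_iff)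

theorem relabel {R : Pr.{u} α} (h : Df b C R) (f : α → β) :
    Df b C (fun G _ (v : β → G) => R G (v ∘ f)) := by
  obtain ⟨φ, h1, h2⟩ := h
  exact ⟨φ.relabel f, fun hb => (h1 hb).relabel _, fun G _ hG v => by
    beta_reduce; rw [Formula.realize_relabel, h2 G hG]⟩

theorem subst {R : Pr.{u} α} (h : Df false C R) (F : ∀ (G : Type u) [Group G], (β → G) → α → G)
    (hF : ∀ a, Tm (fun G _ v => F G v a)) : Df false C (fun G _ v => R G (F G v)) := by
  obtain ⟨φ, -, h2⟩ := h
  choose t ht using hF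
  refine ⟨φ.subst t, fun hb => by simp at hb, fun G _ hG v => ?_⟩
  beta_reduce
  rw [h2 G hG, Formula.Realize, Formula.Realize, BoundedFormula.realize_subst]
  have : F G v = fun a => Term.realize v (t a) := funext fun a => ht a G v
  rw [this]

theorem exT (μ : Type) [Finite μ] {R : ∀ (G : Type u) [Group G], (α → G) → (μ → G) → Prop}
    (h : Df false C (fun G _ (w : α ⊕ μ → G) =>
      R G (fun a => w (Sum.inl a)) (fun m => w (Sum.inr m)))) :
    Df false C (fun G _ v => ∃ x : μ → G, R G v x) := by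
  obtain ⟨φ, -, h2⟩ := h
  refine ⟨φ.iExs μ, fun hb => by simp at hb, fun G _ hG v => ?_⟩
  rw [Formula.realize_iExs]
  exact exists_congr fun x => h2 G hG (Sum.elim v x)

theorem allT (μ : Type) [Finite μ] {R : ∀ (G : Type u) [Group G], (α → G) → (μ → G) → Prop}
    (h : Df false C (fun G _ (w : α ⊕ μ → G) =>
      R G (fun a => w (Sum.inl a)) (fun m => w (Sum.inr m)))) :
    Df false C (fun G _ v => ∀ x : μ → G, R G v x) :=
  (exT μ (R := fun G _ v x => ¬ R G v x) h.not).not.congr (fun G _ _ v => by simp)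

theorem ex {R : ∀ (G : Type u) [Group G], (α → G) → G → Prop}
    (h : Df false C (fun G _ (w : α ⊕ Unit → G) =>
      R G (fun a => w (Sum.inl a)) (w (Sum.inr ())))) :
    Df false C (fun G _ v => ∃ x : G, R G v x) :=
  (exT Unit (R := fun G _ v x => R G v (x ())) h).congr (fun G _ _ v =>
    ⟨fun ⟨x, hx⟩ => ⟨fun _ => x, hx⟩, fun ⟨x, hx⟩ => ⟨x (), hx⟩⟩)

theorem all {R : ∀ (G : Type u) [Group G], (α → G) → G → Prop}
    (h : Df false C (fun G _ (w : α ⊕ Unit → G) =>
      R G (fun a => w (Sum.inl a)) (w (Sum.inr ())))) :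
    Df false C (fun G _ v => ∀ x : G, R G v x) :=
  (ex (R := fun G _ v x => ¬ R G v x) h.not).not.congr (fun G _ _ v => by simp)

end Df

/-- The class of all groups. -/
def AllG : Cls.{u} := fun _ _ => True

/-- An injective group homomorphism as an embedding of structures. -/
def embOf {G K : Type u} [Group G] [Group K] (f : G →* K) (hf : Function.Injective f) :
    G ↪[grpLang] K where
  toFun := f
  inj' := hf
  map_fun' := fun {n} s x => by
    cases s with
    | unit => exact map_one f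
    | inverse => exact map_inv f _
    | product => exact map_mul f _ _
  map_rel' := fun r => Empty.elim r

theorem Df.map {α : Type} {R : Pr.{u} α} (h : Df true AllG R) {G K : Type u} [Group G] [Group K]
    (f : G →* K) (hf : Function.Injective f) (v : α → G) : R K (f ∘ v) ↔ R G v := by
  obtain ⟨φ, h1, h2⟩ := h
  rw [h2 G trivial, h2 K trivial, Formula.Realize, Formula.Realize,
    ← (h1 rfl).realize_embedding (embOf f hf)]
  rw [Unique.eq_default ((embOf f hf) ∘ default)]
  rfl

/-- Existentially closed groups. -/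
def EC : Cls.{u} := fun G _ =>
  ∀ (μ ι : Type) [Finite μ] [Finite ι] (R : Pr.{u} (μ ⊕ ι)), Df true AllG R →
    ∀ (K : Type u) [Group K] (f : G →* K), Function.Injective f →
      ∀ (a : μ → G) (x : ι → K), R K (Sum.elim (f ∘ a) x) → ∃ y : ι → G, R G (Sum.elim a y)

end Pool.Agent.P.MP_6c8412_lc
end

-- part Pool.Agent.P.MP_6c8412_lc.Generic
section

set_option linter.unusedVariables false

namespace Pool.Agent.P.MP_6c8412_lc

open FirstOrder Language

universe u v

theorem exists_conj_ext {C : Type v} {G : Type u} [Group C] [Group G] (i j : C →* G)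
    (hi : Function.Injective i) (hj : Function.Injective j) :
    ∃ (K : Type u) (_ : Group K) (f : G →* K) (s : K), Function.Injective f ∧
      ∀ c, s * f (i c) * s⁻¹ = f (j c) := by
  let φ : i.range ≃* j.range := (MonoidHom.ofInjective hi).symm.trans (MonoidHom.ofInjective hj)
  refine ⟨HNNExtension G i.range j.range φ, inferInstance, HNNExtension.of, HNNExtension.t,
    HNNExtension.of_injective φ, fun c => ?_⟩
  have h := HNNExtension.equiv_eq_conj (φ := φ) (MonoidHom.ofInjective hi c)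
  have e : (φ (MonoidHom.ofInjective hi c) : G) = j c := by
    simp [φ, MonoidHom.ofInjective_apply]
  rw [e, MonoidHom.ofInjective_apply] at h
  exact h.symm

theorem exists_amalgam {C : Type v} {A B : Type u} [Group C] [Group A] [Group B] (i : C →* A)
    (j : C →* B) (hi : Function.Injective i) (hj : Function.Injective j) :
    ∃ (K : Type u) (_ : Group K) (f : A →* K) (g : B →* K), Function.Injective f ∧
      Function.Injective g ∧ ∀ c, f (i c) = g (j c) := by
  obtain ⟨K, _, f, s, hf, hs⟩ := exists_conj_ext ((MonoidHom.inl A B).comp i)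
    ((MonoidHom.inr A B).comp j) (fun a b h => hi (by simpa using h))
    (fun a b h => hj (by simpa using h))
  refine ⟨K, inferInstance, (MulAut.conj s).toMonoidHom.comp (f.comp (MonoidHom.inl A B)),
    f.comp (MonoidHom.inr A B), ?_, ?_, fun c => ?_⟩
  · intro a b h
    have h1 : f (a, 1) = f (b, 1) := (MulAut.conj s).injective h
    simpa using hf h1
  · intro a b h
    have h1 : f (1, a) = f (1, b) := h
    simpa using hf h1
  · exact hs c

theorem IsExSaturated.ec {G : Type u} [Group G] (h : IsExSaturated G) : EC G := by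
  intro μ ι _ _ R hR K _ f hf a x hx
  obtain ⟨m, ⟨e⟩⟩ := Finite.exists_equiv_fin μ
  obtain ⟨n, ⟨e'⟩⟩ := Finite.exists_equiv_fin ι
  obtain ⟨φ, h1, h2⟩ := hR.relabel (Sum.map e e')
  obtain ⟨y, hy⟩ := h m n (a ∘ e.symm) {φ} (fun ψ hψ => by
    rw [Set.mem_singleton_iff.1 hψ]; exact (h1 rfl).isExistential) K f hf
    ⟨x ∘ e'.symm, fun ψ hψ => by
      rw [Set.mem_singleton_iff.1 hψ, ← h2 K trivial]
      have : Sum.elim (f ∘ a ∘ e.symm) (x ∘ e'.symm) ∘ Sum.map e e' = Sum.elim (f ∘ a) x := by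
        funext z; cases z <;> simp
      beta_reduce
      rw [this]; exact hx⟩
  refine ⟨y ∘ e', ?_⟩
  have h3 := (h2 G trivial _).2 (hy φ rfl)
  have : Sum.elim (a ∘ e.symm) y ∘ Sum.map e e' = Sum.elim a (y ∘ e') := by
    funext z; cases z <;> simp
  beta_reduce at h3
  rwa [this] at h3

/-- An elementary embedding as a group homomorphism. -/
noncomputable def homOf {G K : Type u} [Group G] [Group K] (e : G ↪ₑ[grpLang] K) : G →* K :=
  MonoidHom.mk' e (fun a b => e.map_fun GrpSymb.product ![a, b])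

theorem IsInfGeneric.ec {G : Type u} [Group G] (h : IsInfGeneric G) : EC G := by
  obtain ⟨S, _, hS, ⟨e⟩⟩ := h
  intro μ ι _ _ R hR K _ f hf a x hx
  obtain ⟨L, _, f1, f2, hf1, hf2, hc⟩ := exists_amalgam f (homOf e) hf e.injective
  have h1 : R L (Sum.elim (f2 ∘ (e ∘ a)) (f1 ∘ x)) := by
    have := (hR.map f1 hf1 _).2 hx
    have e1 : f1 ∘ Sum.elim (f ∘ a) x = Sum.elim (f2 ∘ (e ∘ a)) (f1 ∘ x) := by
      funext z
      cases z with
      | inl z => exact hc (a z)
      | inr z => rfl
    rwa [e1] at this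
  obtain ⟨y, hy⟩ := hS.ec μ ι R hR L f2 hf2 (e ∘ a) (f1 ∘ x) h1
  obtain ⟨φ, -, h2⟩ := hR
  have h3 : (φ.iExs ι).Realize (e ∘ a) := by
    rw [Formula.realize_iExs]
    exact ⟨y, (h2 S trivial _).1 hy⟩
  rw [e.map_formula, Formula.realize_iExs] at h3
  obtain ⟨z, hz⟩ := h3
  exact ⟨z, (h2 G trivial _).2 hz⟩

/-- Two tuples satisfy the same equations. -/
def SameEq {G H : Type u} [Group G] [Group H] {n : ℕ} (x : Fin n → G) (y : Fin n → H) : Prop :=
  ∀ w : FreeGroup (Fin n), FreeGroup.lift x w = 1 ↔ FreeGroup.lift y w = 1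

theorem SameEq.symm {G H : Type u} [Group G] [Group H] {n : ℕ} {x : Fin n → G} {y : Fin n → H}
    (h : SameEq x y) : SameEq y x := fun w => (h w).symm

theorem SameEq.forth {G H : Type u} [Group G] [Group H] (hH : IsExSaturated H) {n : ℕ}
    {x : Fin n → G} {y : Fin n → H} (h : SameEq x y) (a : G) :
    ∃ b : H, SameEq (Fin.snoc x a : Fin (n + 1) → G) (Fin.snoc y b : Fin (n + 1) → H) := by
  have hk : (FreeGroup.lift x).ker = (FreeGroup.lift y).ker := by
    ext w; exact h w
  let i := QuotientGroup.kerLift (FreeGroup.lift x)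
  let j : FreeGroup (Fin n) ⧸ (FreeGroup.lift x).ker →* H :=
    QuotientGroup.lift _ (FreeGroup.lift y) (fun w hw => (h w).1 hw)
  have hj : Function.Injective j := by
    rw [injective_iff_map_eq_one]
    intro c hc
    induction c using QuotientGroup.induction_on with
    | H w => exact (QuotientGroup.eq_one_iff w).2 ((h w).2 hc)
  obtain ⟨K, _, f, g, hf, hg, hc⟩ := exists_amalgam i j (QuotientGroup.kerLift_injective _) hj
  have hxy : f ∘ x = g ∘ y := by
    funext k
    have := hc (QuotientGroup.mk (FreeGroup.of k))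
    simpa [i, j] using this
  have key : ∀ w : FreeGroup (Fin (n + 1)), Df true AllG.{u}
      (fun L _ (v : Fin n ⊕ Fin 1 → L) =>
        (FreeGroup.lift (v ∘ finSumFinEquiv.symm) w = 1 ↔
          FreeGroup.lift (Fin.snoc x a : Fin (n + 1) → G) w = 1)) := fun w =>
    ((Df.eq (Tm.lift w) Tm.one).relabel _).iff (Df.const _)
  choose φ h1 h2 using key
  have hs : ∀ {L : Type u} (z : Fin n → L) (c : Fin 1 → L),
      Sum.elim z c ∘ finSumFinEquiv.symm = (Fin.snoc z (c 0) : Fin (n + 1) → L) := by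
    intro L z c
    funext k
    induction k using Fin.lastCases with
    | last =>
      have : finSumFinEquiv.symm (Fin.last n) = (Sum.inr 0 : Fin n ⊕ Fin 1) :=
        finSumFinEquiv_symm_last
      simp [this]
    | cast k =>
      have : finSumFinEquiv.symm (Fin.castSucc k) = (Sum.inl k : Fin n ⊕ Fin 1) :=
        finSumFinEquiv_symm_apply_castAdd k
      simp [this]
  obtain ⟨b, hb⟩ := hH n 1 y (Set.range φ)
    (by rintro _ ⟨w, rfl⟩; exact (h1 w rfl).isExistential) K g hg ⟨fun _ => f a, by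
      rintro _ ⟨w, rfl⟩
      rw [← h2 w K trivial]
      beta_reduce
      rw [hs, ← hxy, ← Fin.comp_snoc]
      have : FreeGroup.lift (f ∘ (Fin.snoc x a : Fin (n + 1) → G)) w =
          f (FreeGroup.lift (Fin.snoc x a : Fin (n + 1) → G) w) := by
        have : FreeGroup.lift (f ∘ (Fin.snoc x a : Fin (n + 1) → G)) =
            f.comp (FreeGroup.lift (Fin.snoc x a : Fin (n + 1) → G)) := by
          ext k; simp
        rw [this]; rfl
      rw [this, map_eq_one_iff f hf]⟩
  refine ⟨b 0, fun w => ?_⟩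
  have := (h2 w H trivial _).2 (hb _ ⟨w, rfl⟩)
  beta_reduce at this
  rw [hs] at this
  exact this.symm

theorem realize_iff_of_sameEq {G H : Type u} [Group G] [Group H] (hG : IsExSaturated G)
    (hH : IsExSaturated H) {α : Type} [IsEmpty α] {n : ℕ} (φ : grpLang.BoundedFormula α n)
    (v : α → G) (v' : α → H) (x : Fin n → G) (y : Fin n → H) (h : SameEq x y) :
    φ.Realize v x ↔ φ.Realize v' y := by
  induction φ with
  | falsum => exact Iff.rfl
  | @equal n t s =>
    obtain ⟨w, hw⟩ := term_eq_lift.{u} (t.relabel (Sum.elim isEmptyElim id))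
    obtain ⟨w', hw'⟩ := term_eq_lift.{u} (s.relabel (Sum.elim isEmptyElim id))
    have e : ∀ {L : Type u} (r : α → L) (z : Fin n → L),
        z ∘ Sum.elim isEmptyElim id = Sum.elim r z := by
      intro L r z
      funext k
      cases k with
      | inl k => exact isEmptyElim k
      | inr k => rfl
    have a1 := hw G x
    have a2 := hw H y
    have a3 := hw' G x
    have a4 := hw' H y
    rw [Term.realize_relabel, e v] at a1 a3
    rw [Term.realize_relabel, e v'] at a2 a4
    change Term.realize _ t = Term.realize _ s ↔ Term.realize _ t = Term.realize _ s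
    rw [a1, a2, a3, a4, ← mul_inv_eq_one, ← map_inv, ← map_mul, h, map_mul, map_inv,
      mul_inv_eq_one]
  | rel r _ => exact Empty.elim r
  | imp φ ψ h1 h2 =>
    rw [BoundedFormula.realize_imp, BoundedFormula.realize_imp, h1 x y h, h2 x y h]
  | all φ ih =>
    rw [BoundedFormula.realize_all, BoundedFormula.realize_all]
    constructor
    · intro h1 b
      obtain ⟨a, ha⟩ := h.symm.forth hG b
      exact (ih _ _ ha.symm).1 (h1 a)
    · intro h1 a
      obtain ⟨b, hb⟩ := h.forth hH a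
      exact (ih _ _ hb).2 (h1 b)

theorem Df.transfer {α : Type} [IsEmpty α] {R : Pr.{u} α} (hR : Df false EC R)
    {G H : Type u} [Group G] [Group H] (hG : IsInfGeneric G) (hH : IsInfGeneric H)
    (v : α → G) (v' : α → H) : R G v ↔ R H v' := by
  obtain ⟨φ, -, h⟩ := hR
  rw [h G hG.ec, h H hH.ec]
  obtain ⟨S, _, hS, ⟨e⟩⟩ := hG
  obtain ⟨S', _, hS', ⟨e'⟩⟩ := hH
  rw [← e.map_formula, ← e'.map_formula]
  refine realize_iff_of_sameEq hS hS' φ _ _ _ _ (fun w => ?_)
  rw [Subsingleton.elim w 1, map_one, map_one]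
  simp

end Pool.Agent.P.MP_6c8412_lc
end

-- part Pool.Agent.P.MP_6c8412_lc.Coding
section

set_option linter.unusedVariables false

namespace Pool.Agent.P.MP_6c8412_lc

open FirstOrder Language SemidirectProduct

universe u

theorem EC.mem_zpowers_iff {G : Type u} [Group G] (hG : EC G) (t x : G) :
    x ∈ Subgroup.zpowers t ↔ ∀ y : G, y * t = t * y → y * x = x * y := by
  classical
  constructor
  · rintro ⟨k, rfl⟩ y hy
    exact (Commute.zpow_right hy k)
  · intro h
    by_contra hx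
    let N := G → Multiplicative (ZMod 2)
    let χ : N := fun g => if g ∈ Subgroup.zpowers t then Multiplicative.ofAdd 1 else 1
    have hc : ∀ g : G, (inl χ * inr g = (inr g * inl χ : N ⋊[mulAutArrow] G)) ↔
        ∀ a, χ (g⁻¹ * a) = χ a := by
      intro g
      rw [SemidirectProduct.ext_iff]
      simp only [mul_left, left_inl, right_inl, map_one, left_inr, mul_one, right_inr, one_mul,
        mul_right, and_true]
      rw [eq_comm, funext_iff]
      rfl
    have hD : Df true AllG.{u} (fun L _ (v : Bool ⊕ Unit → L) =>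
        v (Sum.inr ()) * v (Sum.inl true) = v (Sum.inl true) * v (Sum.inr ()) ∧
        v (Sum.inr ()) * v (Sum.inl false) ≠ v (Sum.inl false) * v (Sum.inr ())) :=
      (Df.eq ((Tm.var _).mul (Tm.var _)) ((Tm.var _).mul (Tm.var _))).and
        (Df.ne ((Tm.var _).mul (Tm.var _)) ((Tm.var _).mul (Tm.var _)))
    obtain ⟨y, hy1, hy2⟩ := hG Bool Unit _ hD (N ⋊[mulAutArrow] G) inr inr_injective
      (fun b => cond b t x) (fun _ => inl χ) ⟨(hc t).2 (fun a => by
        have : t⁻¹ * a ∈ Subgroup.zpowers t ↔ a ∈ Subgroup.zpowers t :=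
          Subgroup.mul_mem_cancel_left _ (inv_mem (Subgroup.mem_zpowers t))
        simp only [χ, this]), fun h1 => by
        have h2 := (hc x).1 h1 x
        simp only [χ, inv_mul_cancel, one_mem, if_true, if_neg hx] at h2
        exact absurd h2 (by decide)⟩
    exact hy2 (h _ hy1)

theorem EC.isOfFinOrder_iff {G : Type u} [Group G] (hG : EC G) (t : G) :
    IsOfFinOrder t ↔ ¬ (t ∉ Subgroup.zpowers (t ^ 2) ∧ ∃ s : G, s * t * s⁻¹ = t ^ 2) := by
  constructor
  · rintro ht ⟨h1, s, hs⟩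
    apply h1
    rw [mem_zpowers_pow_iff]
    have h2 : orderOf (t ^ 2) = orderOf t := by
      rw [← hs]
      exact orderOf_injective (MulAut.conj s).toMonoidHom (MulAut.conj s).injective t
    rw [orderOf_pow' t (by norm_num : 2 ≠ 0)] at h2
    have h3 := ht.orderOf_pos
    rw [Nat.gcd_comm]
    exact (Nat.div_eq_self.1 h2).resolve_left h3.ne'
  · intro h
    by_contra ht
    apply h
    constructor
    · rw [mem_zpowers_pow_iff, orderOf_eq_zero ht]
      norm_num
    · have ht2 : ¬ IsOfFinOrder (t ^ 2) := fun h2 => ht (h2.of_pow (by norm_num))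
      obtain ⟨K, _, f, s, hf, hs⟩ := exists_conj_ext (zpowersHom G t) (zpowersHom G (t ^ 2))
        (fun a b hab => Multiplicative.toAdd.injective
          (injective_zpow_iff_not_isOfFinOrder.2 ht hab))
        (fun a b hab => Multiplicative.toAdd.injective
          (injective_zpow_iff_not_isOfFinOrder.2 ht2 hab))
      have hD : Df true AllG.{u} (fun L _ (v : Unit ⊕ Unit → L) =>
          v (Sum.inr ()) * v (Sum.inl ()) * (v (Sum.inr ()))⁻¹ = v (Sum.inl ()) ^ 2) :=
        Df.eq (((Tm.var _).mul (Tm.var _)).mul (Tm.var _).inv) ((Tm.var _).pow 2)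
      obtain ⟨y, hy⟩ := hG Unit Unit _ hD K f hf (fun _ => t) (fun _ => s) (by
        have := hs (Multiplicative.ofAdd 1)
        simpa using this)
      exact ⟨y (), hy⟩

/-- Variables for a code of a finite relation. -/
abbrev Cd (μ : Type) : Type := Bool ⊕ μ

/-- The decoding word. -/
def dec {G : Type u} [Group G] (F s y : G) : G := (y⁻¹ * F * y) * s * (y⁻¹ * F * y)⁻¹ * s⁻¹

/-- The finite relation coded by `c`. -/
def fs {G : Type u} [Group G] {μ : Type} (c : Cd μ → G) : Set (μ → G) :=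
  {x | IsOfFinOrder (c (Sum.inl false)) ∧ ∃ y ∈ Subgroup.zpowers (c (Sum.inl false)), y ≠ 1 ∧
    ∀ k, x k = dec (c (Sum.inr k)) (c (Sum.inl true)) y}

theorem fs_finite {G : Type u} [Group G] {μ : Type} (c : Cd μ → G) : (fs c).Finite := by
  by_cases h : IsOfFinOrder (c (Sum.inl false))
  · refine ((finite_zpowers.2 h).image
      (fun y k => dec (c (Sum.inr k)) (c (Sum.inl true)) y)).subset ?_
    rintro x ⟨-, y, hy, -, hx⟩
    exact ⟨y, hy, (funext hx).symm⟩
  · exact Set.finite_empty.subset (fun x hx => h hx.1)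

theorem Tm.dec {α : Type} {F s y : ∀ (G : Type u) [Group G], (α → G) → G} (hF : Tm F)
    (hs : Tm s) (hy : Tm y) : Tm (fun G _ v => dec (F G v) (s G v) (y G v)) :=
  ((((hy.inv.mul hF).mul hy).mul hs).mul ((hy.inv.mul hF).mul hy).inv).mul hs.inv

section wreath

variable {G : Type u} [Group G] {Ω : Type}

theorem conj1 (σ : Equiv.Perm Ω) (φ : Ω → G) :
    ((inr σ)⁻¹ * inl φ * inr σ : (Ω → G) ⋊[mulAutArrow] Equiv.Perm Ω) =
      inl (fun p => φ (σ p)) := by
  have := inl_aut (φ := mulAutArrow) σ⁻¹ φ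
  rw [inv_inv] at this
  rw [← map_inv, ← this]
  rfl

theorem conj2 (σ : Equiv.Perm Ω) (φ : Ω → G) :
    (inr σ * inl φ * (inr σ)⁻¹ : (Ω → G) ⋊[mulAutArrow] Equiv.Perm Ω) =
      inl (fun p => φ (σ⁻¹ p)) := by
  have := conj1 σ⁻¹ φ
  rwa [map_inv, inv_inv] at this

end wreath

/-- Shift in the second coordinate. -/
def shT (m : ℕ) : Equiv.Perm (ℤ × ZMod m) := Equiv.prodCongr (Equiv.refl _) (Equiv.addRight 1)

theorem shT_pow (m i : ℕ) (p : ℤ × ZMod m) : (shT m ^ i) p = (p.1, p.2 + i) := by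
  induction i with
  | zero => simp
  | succ i ih => rw [pow_succ', Equiv.Perm.mul_apply, ih]; simp [shT, add_assoc]

/-- Shift in the first coordinate over the base point. -/
def shS (m : ℕ) : Equiv.Perm (ℤ × ZMod m) where
  toFun p := (p.1 + if p.2 = 0 then 1 else 0, p.2)
  invFun p := (p.1 - if p.2 = 0 then 1 else 0, p.2)
  left_inv p := by simp
  right_inv p := by simp

theorem dec_wreath {G : Type u} [Group G] (m i : ℕ) (a : ZMod m → G) :
    dec (inl (fun p => if 0 ≤ p.1 then a p.2 else 1) :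
      (ℤ × ZMod m → G) ⋊[mulAutArrow] Equiv.Perm (ℤ × ZMod m)) (inr (shS m)) (inr (shT m) ^ i) =
      inl (Pi.mulSingle (0, 0) (a i)) := by
  rw [← map_pow, dec, conj1, ← map_inv, mul_assoc, mul_assoc, ← mul_assoc (inr _), conj2,
    ← map_mul]
  congr 1
  funext p
  obtain ⟨j, z⟩ := p
  have e1 : (shS m)⁻¹ (j, z) = (j - if z = 0 then 1 else 0, z) := rfl
  simp only [Pi.mul_apply, Pi.inv_apply, e1, shT_pow]
  by_cases hz : z = 0
  · subst hz
    simp only [if_true, zero_add]
    by_cases hj : j = 0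
    · subst hj
      simp
    · rw [Pi.mulSingle_eq_of_ne (by simpa using hj)]
      by_cases hj' : 0 ≤ j
      · rw [if_pos hj', if_pos (by omega), mul_inv_cancel]
      · rw [if_neg hj', if_neg (by omega), mul_inv_cancel]
  · rw [Pi.mulSingle_eq_of_ne (by simp [hz]), if_neg hz, sub_zero, mul_inv_cancel]

theorem EC.exists_code {G : Type u} [Group G] (hG : EC G) {μ : Type} [Finite μ]
    {S : Set (μ → G)} (hS : S.Finite) : ∃ c : Cd μ → G, fs c = S := by
  classical
  obtain ⟨n, g, -, rfl⟩ := hS.fin_param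
  let g' : ℕ → μ → G := fun m => if h : m - 1 < n then g ⟨m - 1, h⟩ else 1
  let Ω := ℤ × ZMod (n + 1)
  let K := (Ω → G) ⋊[mulAutArrow] Equiv.Perm Ω
  let f : G →* K := inl.comp (MonoidHom.mulSingle (fun _ : Ω => G) (0, 0))
  have hf : Function.Injective f := fun a b h =>
    Pi.mulSingle_injective (M := fun _ : Ω => G) (0, 0) (inl_injective h)
  let F : μ → Ω → G := fun k p => if 0 ≤ p.1 then g' p.2.val k else 1
  let x : Cd μ → K := Sum.elim (fun b => cond b (inr (shS (n + 1))) (inr (shT (n + 1))))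
    (fun k => inl (F k))
  have hD : Df true AllG.{u} (fun L _ (v : (Fin n × μ) ⊕ Cd μ → L) =>
      v (Sum.inr (Sum.inl false)) ^ (n + 1) = 1 ∧ ∀ i : Fin n,
        v (Sum.inr (Sum.inl false)) ^ (i.val + 1) ≠ 1 ∧ ∀ k : μ, v (Sum.inl (i, k)) =
          dec (v (Sum.inr (Sum.inr k))) (v (Sum.inr (Sum.inl true)))
            (v (Sum.inr (Sum.inl false)) ^ (i.val + 1))) :=
    (Df.eq ((Tm.var _).pow _) Tm.one).and (Df.forall_fin fun i =>
      (Df.ne ((Tm.var _).pow _) Tm.one).and (Df.forall_fin fun k =>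
        Df.eq (Tm.var _) (Tm.dec (Tm.var _) (Tm.var _) ((Tm.var _).pow _))))
  have hval : ∀ i : Fin n, (((i.val + 1 : ℕ) : ZMod (n + 1))).val = i.val + 1 := fun i =>
    ZMod.val_natCast_of_lt (by omega)
  obtain ⟨c, h1, h2⟩ := hG (Fin n × μ) (Cd μ) _ hD K f hf (fun p => g p.1 p.2) x (by
    refine ⟨?_, fun i => ⟨?_, fun k => ?_⟩⟩
    · change (inr (shT (n + 1)) : K) ^ (n + 1) = 1
      rw [← map_pow]
      have : shT (n + 1) ^ (n + 1) = 1 := by
        ext p : 1
        rw [shT_pow, ZMod.natCast_self, add_zero]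
        rfl
      rw [this, map_one]
    · change (inr (shT (n + 1)) : K) ^ (i.val + 1) ≠ 1
      rw [← map_pow, Ne, map_eq_one_iff _ inr_injective]
      intro h
      have h3 := shT_pow (n + 1) (i.val + 1) (0, 0)
      rw [h] at h3
      have h4 : (0 : ZMod (n + 1)) = 0 + ((i.val + 1 : ℕ) : ZMod (n + 1)) := congrArg Prod.snd h3
      have h5 := hval i
      rw [zero_add] at h4
      rw [← h4, ZMod.val_zero] at h5
      omega
    · change f (g i k) = dec (inl (F k)) (inr (shS (n + 1))) ((inr (shT (n + 1)) : K) ^ (i.val + 1))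
      have := dec_wreath (n + 1) (i.val + 1) (fun z => g' z.val k)
      simp only [hval, g', Nat.add_sub_cancel, i.2, dif_pos, Fin.eta] at this
      exact this.symm)
  simp only [Sum.elim_inr, Sum.elim_inl] at h1 h2
  have hfin : IsOfFinOrder (c (Sum.inl false)) :=
    isOfFinOrder_iff_pow_eq_one.2 ⟨n + 1, by omega, h1⟩
  refine ⟨c, Set.ext fun x => ⟨?_, ?_⟩⟩
  · rintro ⟨-, y, hy, hy1, hx⟩
    rw [hfin.mem_zpowers_iff_mem_range_orderOf, Finset.mem_image] at hy
    obtain ⟨m, hm, rfl⟩ := hy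
    have h3 : orderOf (c (Sum.inl false)) ≤ n + 1 := orderOf_le_of_pow_eq_one (by omega) h1
    rw [Finset.mem_range] at hm
    have hm0 : m ≠ 0 := by
      rintro rfl
      exact hy1 (pow_zero _)
    refine ⟨⟨m - 1, by omega⟩, funext fun k => ?_⟩
    rw [hx k, (h2 _).2 k]
    congr 2
    simp only
    omega
  · rintro ⟨i, rfl⟩
    exact ⟨hfin, _, Subgroup.npow_mem_zpowers _ _, (h2 i).1, (h2 i).2⟩

theorem EC.infinite {G : Type u} [Group G] (hG : EC G) : Infinite G := by
  classical
  by_contra h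
  rw [not_infinite_iff_finite] at h
  have hD : Df true AllG.{u} (fun L _ (v : Fin (Nat.card G) ⊕ Unit → L) =>
      ∀ i, v (Sum.inr ()) ≠ v (Sum.inl i)) := Df.forall_fin fun i => Df.ne (Tm.var _) (Tm.var _)
  obtain ⟨y, hy⟩ := hG _ Unit _ hD (G × Multiplicative (ZMod 2)) (MonoidHom.inl _ _)
    (fun a b h => by simpa using h) (Finite.equivFin G).symm
    (fun _ => (1, Multiplicative.ofAdd 1)) (fun i h => by
      have := congrArg Prod.snd h
      simp only [Sum.elim_inr, Sum.elim_inl, Function.comp, MonoidHom.inl_apply] at this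
      exact absurd this (by decide))
  exact hy (Finite.equivFin G (y ())) (by simp)

namespace Df

variable {α : Type}

theorem mem_zpowers {F E : ∀ (G : Type u) [Group G], (α → G) → G} (hF : Tm F) (hE : Tm E) :
    Df false EC (fun G _ v => F G v ∈ Subgroup.zpowers (E G v)) := by
  have h : Df false EC.{u} (fun G _ (v : Bool → G) =>
      ∀ y : G, y * v true = v true * y → y * v false = v false * y) :=
    Df.all ((Df.eq ((Tm.var _).mul (Tm.var _)) ((Tm.var _).mul (Tm.var _))).imp
      (Df.eq ((Tm.var _).mul (Tm.var _)) ((Tm.var _).mul (Tm.var _))))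
  refine (h.subst (fun G _ v b => cond b (E G v) (F G v)) (fun b => ?_)).congr
    (fun G _ hG v => hG.mem_zpowers_iff _ _)
  cases b
  · exact hF
  · exact hE

theorem isOfFinOrder {F : ∀ (G : Type u) [Group G], (α → G) → G} (hF : Tm F) :
    Df false EC (fun G _ v => IsOfFinOrder (F G v)) := by
  have h : Df false EC.{u} (fun G _ (v : Unit → G) =>
      ¬ (v () ∉ Subgroup.zpowers (v () ^ 2) ∧ ∃ s : G, s * v () * s⁻¹ = v () ^ 2)) :=
    ((mem_zpowers (Tm.var _) ((Tm.var _).pow 2)).not.and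
      (Df.ex (Df.eq (((Tm.var _).mul (Tm.var _)).mul (Tm.var _).inv) ((Tm.var _).pow 2)))).not
  exact (h.subst (fun G _ v _ => F G v) (fun _ => hF)).congr
    (fun G _ hG v => hG.isOfFinOrder_iff _)

theorem mem_fs {μ : Type} [Finite μ] {c : ∀ (G : Type u) [Group G], (α → G) → Cd μ → G}
    {x : ∀ (G : Type u) [Group G], (α → G) → μ → G} (hx : ∀ k, Tm (fun G _ v => x G v k))
    (hc : ∀ k, Tm (fun G _ v => c G v k)) : Df false EC (fun G _ v => x G v ∈ fs (c G v)) := by
  have h : Df false EC.{u} (fun G _ (v : μ ⊕ Cd μ → G) =>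
      (fun k => v (Sum.inl k)) ∈ fs (fun k => v (Sum.inr k))) :=
    (isOfFinOrder (Tm.var _)).and (Df.ex ((mem_zpowers (Tm.var _) (Tm.var _)).and
      ((Df.ne (Tm.var _) Tm.one).and (Df.forall_fin fun k =>
        Df.eq (Tm.var _) (Tm.dec (Tm.var _) (Tm.var _) (Tm.var _))))))
  refine h.subst (fun G _ v => Sum.elim (x G v) (c G v)) (fun b => ?_)
  cases b with
  | inl k => exact hx k
  | inr k => exact hc k

end Df

end Pool.Agent.P.MP_6c8412_lc
end

-- part Pool.Agent.P.MP_6c8412_lc.Count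
section

set_option linter.unusedVariables false

namespace Pool.Agent.P.MP_6c8412_lc

open FirstOrder Language

universe u

theorem ncard_dep {G : Type u} {μ ν : Type} {S : Set (μ → G)} (hS : S.Finite)
    {B : (μ → G) → Set (ν → G)} (hB : ∀ a, (B a).Finite) :
    {x : μ ⊕ ν → G | (fun m => x (Sum.inl m)) ∈ S ∧
      (fun m => x (Sum.inr m)) ∈ B (fun m => x (Sum.inl m))}.Finite ∧
    {x : μ ⊕ ν → G | (fun m => x (Sum.inl m)) ∈ S ∧
      (fun m => x (Sum.inr m)) ∈ B (fun m => x (Sum.inl m))}.ncard =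
      ∑ a ∈ hS.toFinset, (B a).ncard := by
  let e : (Σ _ : μ → G, ν → G) ↪ (μ ⊕ ν → G) := ⟨fun p => Sum.elim p.1 p.2, by
    rintro ⟨a, b⟩ ⟨a', b'⟩ h
    have h1 : a = a' := funext fun m => congrFun h (Sum.inl m)
    have h2 : b = b' := funext fun m => congrFun h (Sum.inr m)
    subst h1 h2
    rfl⟩
  have key : {x : μ ⊕ ν → G | (fun m => x (Sum.inl m)) ∈ S ∧
      (fun m => x (Sum.inr m)) ∈ B (fun m => x (Sum.inl m))} =
      ((hS.toFinset.sigma fun a => (hB a).toFinset).map e : Finset _) := by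
    ext x
    simp only [Set.mem_ofPred_eq, Finset.coe_map, Set.mem_image, Finset.mem_coe, Finset.mem_sigma,
      Set.Finite.mem_toFinset]
    constructor
    · rintro ⟨h1, h2⟩
      exact ⟨⟨_, _⟩, ⟨h1, h2⟩, by funext m; cases m <;> rfl⟩
    · rintro ⟨⟨a, b⟩, ⟨h1, h2⟩, rfl⟩
      exact ⟨h1, h2⟩
  rw [key]
  refine ⟨Finset.finite_toSet _, ?_⟩
  rw [Set.ncard_coe_finset, Finset.card_map, Finset.card_sigma]
  exact Finset.sum_congr rfl fun a _ => (Set.ncard_eq_toFinset_card _ (hB a)).symm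

/-- Definable families of sets of tuples with an auxiliary parameter. -/
def DSet {α μ : Type} (A : ∀ (G : Type u) [Group G], (α → G) → G → Set (μ → G)) : Prop :=
  Df false EC (fun G _ (w : (α ⊕ Unit) ⊕ μ → G) => (fun m => w (Sum.inr m)) ∈
    A G (fun a => w (Sum.inl (Sum.inl a))) (w (Sum.inl (Sum.inr ()))))

theorem DSet.mem {α β μ : Type} {A : ∀ (G : Type u) [Group G], (α → G) → G → Set (μ → G)}
    (h : DSet A) {V : ∀ (G : Type u) [Group G], (β → G) → α → G}
    {Z : ∀ (G : Type u) [Group G], (β → G) → G} {X : ∀ (G : Type u) [Group G], (β → G) → μ → G}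
    (hX : ∀ a, Tm (fun G _ v => X G v a)) (hV : ∀ a, Tm (fun G _ v => V G v a)) (hZ : Tm Z) :
    Df false EC (fun G _ v => X G v ∈ A G (V G v) (Z G v)) := by
  refine Df.subst h (fun G _ v => Sum.elim (Sum.elim (V G v) (fun _ => Z G v)) (X G v)) ?_
  rintro ((a | a) | a)
  · exact hV a
  · exact hZ
  · exact hX a

/-- Functions counting the elements of a definable finite set. -/
def Cn {α : Type} (N : ∀ (G : Type u) [Group G], (α → G) → ℕ) : Prop :=
  ∃ (μ : Type) (_ : Finite μ) (A : ∀ (G : Type u) [Group G], (α → G) → G → Set (μ → G)),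
    DSet A ∧ ∀ (G : Type u) [Group G], EC G → ∀ v z, z ≠ 1 →
      (A G v z).Finite ∧ (A G v z).ncard = N G v

namespace Cn

variable {α β : Type}

theorem congr {N M : ∀ (G : Type u) [Group G], (α → G) → ℕ} (h : Cn N)
    (e : ∀ (G : Type u) [Group G], EC G → ∀ v : α → G, M G v = N G v) : Cn M := by
  obtain ⟨μ, _, A, h1, h2⟩ := h
  exact ⟨μ, inferInstance, A, h1, fun G _ hG v z hz => by
    rw [e G hG]; exact h2 G hG v z hz⟩

theorem subst {N : ∀ (G : Type u) [Group G], (α → G) → ℕ} (h : Cn N)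
    (F : ∀ (G : Type u) [Group G], (β → G) → α → G) (hF : ∀ a, Tm (fun G _ v => F G v a)) :
    Cn (fun G _ v => N G (F G v)) := by
  obtain ⟨μ, _, A, h1, h2⟩ := h
  refine ⟨μ, inferInstance, fun G _ v z => A G (F G v) z, ?_,
    fun G _ hG v z hz => h2 G hG _ z hz⟩
  refine h1.mem (fun a => Tm.var _) (fun a => ?_) (Tm.var _)
  obtain ⟨t, ht⟩ := hF a
  exact ⟨t.relabel (fun b => Sum.inl (Sum.inl b)), fun G _ v => by
    rw [Term.realize_relabel]; exact ht G _⟩

theorem card_fs {μ : Type} [Finite μ] :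
    Cn.{u} (fun G _ (c : Cd μ → G) => (fs c).ncard) :=
  ⟨μ, inferInstance, fun G _ c z => fs c, Df.mem_fs (fun _ => Tm.var _) (fun _ => Tm.var _),
    fun G _ hG v z hz => ⟨fs_finite _, rfl⟩⟩

open Classical in
theorem ite {R : Pr.{u} α} (h : Df false EC R) : Cn (fun G _ v => if R G v then 1 else 0) := by
  refine ⟨Empty, inferInstance, fun G _ v z => {x | R G v}, ?_, fun G _ hG v z hz =>
    ⟨Set.toFinite _, ?_⟩⟩
  · exact h.subst (fun G _ w a => w (Sum.inl (Sum.inl a))) (fun _ => Tm.var _)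
  · by_cases hR : R G v
    · simp [hR]
    · simp [hR]

theorem add {N M : ∀ (G : Type u) [Group G], (α → G) → ℕ} (h : Cn N) (h' : Cn M) :
    Cn (fun G _ v => N G v + M G v) := by
  obtain ⟨μ, _, A, h1, h2⟩ := h
  obtain ⟨ν, _, B, h3, h4⟩ := h'
  refine ⟨Unit ⊕ μ ⊕ ν, inferInstance, fun G _ v z =>
    {x | (x (Sum.inl ()) = 1 ∧ (fun m => x (Sum.inr (Sum.inl m))) ∈ A G v z ∧
        ∀ m, x (Sum.inr (Sum.inr m)) = 1) ∨
      (x (Sum.inl ()) = z ∧ (fun m => x (Sum.inr (Sum.inr m))) ∈ B G v z ∧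
        ∀ m, x (Sum.inr (Sum.inl m)) = 1)}, ?_, fun G _ hG v z hz => ?_⟩
  · exact ((Df.eq (Tm.var _) Tm.one).and
      ((h1.mem (fun _ => Tm.var _) (fun _ => Tm.var _) (Tm.var _)).and
        (Df.forall_fin fun m => Df.eq (Tm.var _) Tm.one))).or
      ((Df.eq (Tm.var _) (Tm.var _)).and
      ((h3.mem (fun _ => Tm.var _) (fun _ => Tm.var _) (Tm.var _)).and
        (Df.forall_fin fun m => Df.eq (Tm.var _) Tm.one)))
  · obtain ⟨a1, a2⟩ := h2 G hG v z hz
    obtain ⟨b1, b2⟩ := h4 G hG v z hz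
    let f : (μ → G) → (Unit ⊕ μ ⊕ ν → G) := fun a => Sum.elim (fun _ => 1) (Sum.elim a fun _ => 1)
    let g : (ν → G) → (Unit ⊕ μ ⊕ ν → G) := fun b => Sum.elim (fun _ => z) (Sum.elim (fun _ => 1) b)
    have hf : Function.Injective f := fun a a' h =>
      funext fun m => congrFun h (Sum.inr (Sum.inl m))
    have hg : Function.Injective g := fun a a' h =>
      funext fun m => congrFun h (Sum.inr (Sum.inr m))
    have key : {x : Unit ⊕ μ ⊕ ν → G |
        (x (Sum.inl ()) = 1 ∧ (fun m => x (Sum.inr (Sum.inl m))) ∈ A G v z ∧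
        ∀ m, x (Sum.inr (Sum.inr m)) = 1) ∨
      (x (Sum.inl ()) = z ∧ (fun m => x (Sum.inr (Sum.inr m))) ∈ B G v z ∧
        ∀ m, x (Sum.inr (Sum.inl m)) = 1)} = f '' A G v z ∪ g '' B G v z := by
      ext x
      constructor
      · rintro (⟨c1, c2, c3⟩ | ⟨c1, c2, c3⟩)
        · refine Or.inl ⟨_, c2, funext ?_⟩
          rintro (m | m | m)
          · exact c1.symm
          · rfl
          · exact (c3 m).symm
        · refine Or.inr ⟨_, c2, funext ?_⟩
          rintro (m | m | m)
          · exact c1.symm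
          · exact (c3 m).symm
          · rfl
      · rintro (⟨a, ha, rfl⟩ | ⟨b, hb, rfl⟩)
        · exact Or.inl ⟨rfl, ha, fun _ => rfl⟩
        · exact Or.inr ⟨rfl, hb, fun _ => rfl⟩
    beta_reduce
    rw [key]
    refine ⟨(a1.image f).union (b1.image g), ?_⟩
    rw [Set.ncard_union_eq _ (a1.image f) (b1.image g), Set.ncard_image_of_injective _ hf,
      Set.ncard_image_of_injective _ hg, a2, b2]
    rw [Set.disjoint_left]
    rintro _ ⟨a, -, rfl⟩ ⟨b, -, hb⟩
    exact hz (congrFun hb (Sum.inl ()))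

theorem const (n : ℕ) : Cn.{u} (fun G _ (_ : α → G) => n) := by
  induction n with
  | zero => exact (ite (Df.const False)).congr (fun G _ _ v => by simp)
  | succ n ih => exact (ih.add (ite (Df.const True))).congr (fun G _ _ v => by simp)

theorem mul {N M : ∀ (G : Type u) [Group G], (α → G) → ℕ} (h : Cn N) (h' : Cn M) :
    Cn (fun G _ v => N G v * M G v) := by
  obtain ⟨μ, _, A, h1, h2⟩ := h
  obtain ⟨ν, _, B, h3, h4⟩ := h'
  refine ⟨μ ⊕ ν, inferInstance, fun G _ v z =>
    {x | (fun m => x (Sum.inl m)) ∈ A G v z ∧ (fun m => x (Sum.inr m)) ∈ B G v z}, ?_,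
    fun G _ hG v z hz => ?_⟩
  · exact (h1.mem (fun _ => Tm.var _) (fun _ => Tm.var _) (Tm.var _)).and
      (h3.mem (fun _ => Tm.var _) (fun _ => Tm.var _) (Tm.var _))
  · obtain ⟨a1, a2⟩ := h2 G hG v z hz
    obtain ⟨b1, b2⟩ := h4 G hG v z hz
    obtain ⟨c1, c2⟩ := ncard_dep a1 (B := fun _ => B G v z) (fun _ => b1)
    refine ⟨c1, c2.trans ?_⟩
    beta_reduce
    rw [Finset.sum_const, smul_eq_mul, b2, ← a2, Set.ncard_eq_toFinset_card _ a1]

theorem sum {μ : Type} [Finite μ] {N : ∀ (G : Type u) [Group G], (α ⊕ μ → G) → ℕ} (h : Cn N)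
    {c : ∀ (G : Type u) [Group G], (α → G) → Cd μ → G} (hc : ∀ k, Tm (fun G _ v => c G v k)) :
    Cn (fun G _ v => ∑ a ∈ (fs_finite (c G v)).toFinset, N G (Sum.elim v a)) := by
  obtain ⟨ν, _, B, h3, h4⟩ := h
  refine ⟨μ ⊕ ν, inferInstance, fun G _ v z =>
    {x | (fun m => x (Sum.inl m)) ∈ fs (c G v) ∧
      (fun m => x (Sum.inr m)) ∈ B G (Sum.elim v fun m => x (Sum.inl m)) z}, ?_,
    fun G _ hG v z hz => ?_⟩
  · refine (Df.mem_fs (fun _ => Tm.var _) (fun k => ?_)).and
      (h3.mem (fun _ => Tm.var _) ?_ (Tm.var _))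
    · obtain ⟨t, ht⟩ := hc k
      exact ⟨t.relabel (fun b => Sum.inl (Sum.inl b)), fun G _ v => by
        rw [Term.realize_relabel]; exact ht G _⟩
    · rintro (a | a)
      · exact Tm.var _
      · exact Tm.var _
  · obtain ⟨c1, c2⟩ := ncard_dep (fs_finite (c G v)) (B := fun a => B G (Sum.elim v a) z)
      (fun a => (h4 G hG _ z hz).1)
    exact ⟨c1, c2.trans (Finset.sum_congr rfl fun a _ => (h4 G hG _ z hz).2)⟩

theorem le {N M : ∀ (G : Type u) [Group G], (α → G) → ℕ} (h : Cn N) (h' : Cn M) :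
    Df false EC (fun G _ v => N G v ≤ M G v) := by
  obtain ⟨μ, _, A, h1, h2⟩ := h
  obtain ⟨ν, _, B, h3, h4⟩ := h'
  have hD : Df false EC (fun G _ (v : α → G) => ∃ z : G, z ≠ 1 ∧ ∃ c : Cd (μ ⊕ ν) → G,
      (∀ x : μ → G, x ∈ A G v z → ∃ y : ν → G, y ∈ B G v z ∧ Sum.elim x y ∈ fs c) ∧
      ∀ x x' : μ → G, ∀ y : ν → G, Sum.elim x y ∈ fs c → Sum.elim x' y ∈ fs c → x = x') := by
    refine Df.ex ((Df.ne (Tm.var _) Tm.one).and (Df.exT _ (Df.and (Df.allT _ (Df.imp
      (h1.mem (fun _ => Tm.var _) (fun _ => Tm.var _) (Tm.var _)) (Df.exT _ (Df.and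
      (h3.mem (fun _ => Tm.var _) (fun _ => Tm.var _) (Tm.var _))
      (Df.mem_fs ?_ (fun _ => Tm.var _)))))) (Df.allT _ (Df.allT _ (Df.allT _
      (Df.imp (Df.mem_fs ?_ (fun _ => Tm.var _)) (Df.imp (Df.mem_fs ?_ (fun _ => Tm.var _))
      (Df.funEq (fun _ => Tm.var _) (fun _ => Tm.var _))))))))))
    all_goals
      rintro (a | a)
      · exact Tm.var _
      · exact Tm.var _
  refine hD.congr (fun G _ hG v => ⟨fun hle => ?_, ?_⟩)
  · have := hG.infinite
    obtain ⟨z, hz⟩ := exists_ne (1 : G)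
    obtain ⟨a1, a2⟩ := h2 G hG v z hz
    obtain ⟨b1, b2⟩ := h4 G hG v z hz
    rw [← a2, ← b2] at hle
    have hle' : (A G v z).encard ≤ (B G v z).encard := by
      rw [← a1.cast_ncard_eq, ← b1.cast_ncard_eq]
      exact_mod_cast hle
    obtain ⟨f, hf1, hf2⟩ := a1.exists_injOn_of_encard_le hle'
    obtain ⟨c, hc⟩ := hG.exists_code (a1.image (fun x => (Sum.elim x (f x) : μ ⊕ ν → G)))
    refine ⟨z, hz, c, fun x hx => ⟨f x, hf1 hx, hc ▸ ⟨x, hx, rfl⟩⟩, fun x x' y hx hx' => ?_⟩
    rw [hc] at hx hx'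
    obtain ⟨a, ha, e⟩ := hx
    obtain ⟨a', ha', e'⟩ := hx'
    have e1 : a = x := funext fun m => congrFun e (Sum.inl m)
    have e2 : a' = x' := funext fun m => congrFun e' (Sum.inl m)
    have e3 : f a = y := funext fun m => congrFun e (Sum.inr m)
    have e4 : f a' = y := funext fun m => congrFun e' (Sum.inr m)
    rw [← e1, ← e2]
    exact hf2 ha ha' (e3.trans e4.symm)
  · rintro ⟨z, hz, c, c1, c2⟩
    obtain ⟨a1, a2⟩ := h2 G hG v z hz
    obtain ⟨b1, b2⟩ := h4 G hG v z hz
    rw [← a2, ← b2]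
    choose! f hf1 hf2 using c1
    exact Set.ncard_le_ncard_of_injOn f hf1
      (fun x hx x' hx' e => c2 x x' (f x) (hf2 x hx) (e ▸ hf2 x' hx')) b1

end Cn

/-- Gaussian integer valued combinations of counting functions. -/
def Zn {α : Type} (F : ∀ (G : Type u) [Group G], (α → G) → ℂ) : Prop :=
  ∃ a b c d : ∀ (G : Type u) [Group G], (α → G) → ℕ, Cn a ∧ Cn b ∧ Cn c ∧ Cn d ∧
    ∀ (G : Type u) [Group G], EC G → ∀ v,
      F G v = ((a G v : ℂ) - b G v) + Complex.I * ((c G v : ℂ) - d G v)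

namespace Zn

variable {α β : Type}

theorem congr {F E : ∀ (G : Type u) [Group G], (α → G) → ℂ} (h : Zn F)
    (e : ∀ (G : Type u) [Group G], EC G → ∀ v : α → G, E G v = F G v) : Zn E := by
  obtain ⟨a, b, c, d, ha, hb, hc, hd, h⟩ := h
  exact ⟨a, b, c, d, ha, hb, hc, hd, fun G _ hG v => (e G hG v).trans (h G hG v)⟩

theorem subst {E : ∀ (G : Type u) [Group G], (α → G) → ℂ} (h : Zn E)
    (F : ∀ (G : Type u) [Group G], (β → G) → α → G) (hF : ∀ a, Tm (fun G _ v => F G v a)) :
    Zn (fun G _ v => E G (F G v)) := by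
  obtain ⟨a, b, c, d, ha, hb, hc, hd, h⟩ := h
  exact ⟨_, _, _, _, ha.subst F hF, hb.subst F hF, hc.subst F hF, hd.subst F hF,
    fun G _ hG v => h G hG _⟩

theorem ofCn {N : ∀ (G : Type u) [Group G], (α → G) → ℕ} (h : Cn N) :
    Zn (fun G _ v => (N G v : ℂ)) :=
  ⟨N, _, _, _, h, Cn.const 0, Cn.const 0, Cn.const 0, fun G _ hG v => by simp⟩

theorem add {F E : ∀ (G : Type u) [Group G], (α → G) → ℂ} (h : Zn F) (h' : Zn E) :
    Zn (fun G _ v => F G v + E G v) := by
  obtain ⟨a, b, c, d, ha, hb, hc, hd, h⟩ := h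
  obtain ⟨a', b', c', d', ha', hb', hc', hd', h'⟩ := h'
  refine ⟨_, _, _, _, ha.add ha', hb.add hb', hc.add hc', hd.add hd', fun G _ hG v => ?_⟩
  beta_reduce
  rw [h G hG, h' G hG]
  push_cast
  ring

theorem mulI {F : ∀ (G : Type u) [Group G], (α → G) → ℂ} (h : Zn F) :
    Zn (fun G _ v => Complex.I * F G v) := by
  obtain ⟨a, b, c, d, ha, hb, hc, hd, h⟩ := h
  refine ⟨_, _, _, _, hd, hc, ha, hb, fun G _ hG v => ?_⟩
  beta_reduce
  rw [h G hG]
  linear_combination ((c G v : ℂ) - d G v) * Complex.I_mul_I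

theorem neg {F : ∀ (G : Type u) [Group G], (α → G) → ℂ} (h : Zn F) :
    Zn (fun G _ v => - F G v) :=
  h.mulI.mulI.congr (fun G _ hG v => by linear_combination (- F G v) * Complex.I_mul_I)

theorem sub {F E : ∀ (G : Type u) [Group G], (α → G) → ℂ} (h : Zn F) (h' : Zn E) :
    Zn (fun G _ v => F G v - E G v) :=
  (h.add h'.neg).congr (fun G _ hG v => sub_eq_add_neg _ _)

theorem mulCn {N : ∀ (G : Type u) [Group G], (α → G) → ℕ} (hN : Cn N)
    {F : ∀ (G : Type u) [Group G], (α → G) → ℂ} (h : Zn F) :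
    Zn (fun G _ v => (N G v : ℂ) * F G v) := by
  obtain ⟨a, b, c, d, ha, hb, hc, hd, h⟩ := h
  refine ⟨_, _, _, _, hN.mul ha, hN.mul hb, hN.mul hc, hN.mul hd, fun G _ hG v => ?_⟩
  beta_reduce
  rw [h G hG]
  push_cast
  ring

theorem intMul (k : ℤ) {F : ∀ (G : Type u) [Group G], (α → G) → ℂ} (h : Zn F) :
    Zn (fun G _ v => (k : ℂ) * F G v) := by
  obtain ⟨n, rfl | rfl⟩ := Int.eq_nat_or_neg k
  · exact (mulCn (Cn.const n) h).congr (fun G _ hG v => by simp)
  · exact (mulCn (Cn.const n) h).neg.congr (fun G _ hG v => by simp)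

theorem sum {μ : Type} [Finite μ] {F : ∀ (G : Type u) [Group G], (α ⊕ μ → G) → ℂ} (h : Zn F)
    {c : ∀ (G : Type u) [Group G], (α → G) → Cd μ → G} (hc : ∀ k, Tm (fun G _ v => c G v k)) :
    Zn (fun G _ v => ∑ a ∈ (fs_finite (c G v)).toFinset, F G (Sum.elim v a)) := by
  obtain ⟨a, b, c', d, ha, hb, hc', hd, h⟩ := h
  refine ⟨_, _, _, _, ha.sum hc, hb.sum hc, hc'.sum hc, hd.sum hc, fun G _ hG v => ?_⟩
  simp only [h G hG]
  push_cast
  rw [Finset.sum_add_distrib, ← Finset.mul_sum, Finset.sum_sub_distrib, Finset.sum_sub_distrib]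

theorem re_le {F E : ∀ (G : Type u) [Group G], (α → G) → ℂ} (h : Zn F) (h' : Zn E) :
    Df false EC (fun G _ v => (F G v).re ≤ (E G v).re) := by
  obtain ⟨a, b, c, d, ha, hb, hc, hd, h⟩ := h
  obtain ⟨a', b', c', d', ha', hb', hc', hd', h'⟩ := h'
  refine ((ha.add hb').le (ha'.add hb)).congr (fun G _ hG v => ?_)
  rw [h G hG, h' G hG]
  simp only [Complex.add_re, Complex.sub_re, Complex.natCast_re, Complex.mul_re, Complex.I_re,
    zero_mul, Complex.I_im, Complex.sub_im, Complex.natCast_im, sub_self, mul_zero, add_zero]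
  rw [← Nat.cast_le (α := ℝ)]
  push_cast
  constructor <;> intro h <;> linarith

end Zn

end Pool.Agent.P.MP_6c8412_lc
end

-- part Pool.Agent.P.MP_6c8412_lc.Approx
section

set_option linter.unusedVariables false
set_option linter.unusedSectionVars false

namespace Pool.Agent.P.MP_6c8412_lc

universe u

/-- Variables for a code of an element of the group ring over the Gaussian rationals. -/
abbrev XC : Type := (Fin 4 × Cd Bool) ⊕ Cd Unit

section

variable {G : Type u} [Group G]

/-- Sum of left translations coded by a finite relation. -/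
noncomputable def sm (c : Cd Bool → G) : Op G := ∑ p ∈ (fs_finite c).toFinset, lam (p true)

/-- Numerator of the coded operator. -/
noncomputable def num (c : XC → G) : Op G :=
  (sm (fun k => c (Sum.inl (0, k))) - sm (fun k => c (Sum.inl (1, k)))) +
    Complex.I • (sm (fun k => c (Sum.inl (2, k))) - sm (fun k => c (Sum.inl (3, k))))

/-- Denominator of the coded operator. -/
noncomputable def den (c : XC → G) : ℕ := (fs (fun k => c (Sum.inr k))).ncard + 1

/-- The coded operator. -/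
noncomputable def cop (c : XC → G) : Op G := ((den c : ℂ))⁻¹ • num c

theorem sm_mem (c : Cd Bool → G) : sm c ∈ Submodule.span ℂ (Set.range (lam (G := G))) :=
  Submodule.sum_mem _ fun p _ => Submodule.subset_span ⟨p true, rfl⟩

theorem num_mem (c : XC → G) : num c ∈ Submodule.span ℂ (Set.range (lam (G := G))) :=
  Submodule.add_mem _ (Submodule.sub_mem _ (sm_mem _) (sm_mem _))
    (Submodule.smul_mem _ _ (Submodule.sub_mem _ (sm_mem _) (sm_mem _)))

theorem cop_mem (c : XC → G) : cop c ∈ Submodule.span ℂ (Set.range (lam (G := G))) :=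
  Submodule.smul_mem _ _ (num_mem c)

theorem den_pos (c : XC → G) : 0 < den c := Nat.succ_pos _

theorem num_eq (c : XC → G) : num c = (den c : ℂ) • cop c := by
  rw [cop, smul_smul, mul_inv_cancel₀ (by exact_mod_cast (den_pos c).ne'), one_smul]

theorem EC.exists_sm (hG : EC G) (l : Multiset G) : ∃ c : Cd Bool → G, sm c = (l.map lam).sum := by
  classical
  have := hG.infinite
  have key : ∃ S : Finset (Bool → G), ∑ p ∈ S, lam (p true) = (l.map lam).sum := by
    induction l using Multiset.induction_on with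
    | empty => exact ⟨∅, by simp⟩
    | cons g l ih =>
      obtain ⟨S, hS⟩ := ih
      obtain ⟨j, hj⟩ := Infinite.exists_notMem_finset (S.image (fun p => p false))
      refine ⟨insert (fun b => cond b g j) S, ?_⟩
      rw [Finset.sum_insert (fun h => hj (Finset.mem_image.2 ⟨_, h, rfl⟩)), hS]
      simp
  obtain ⟨S, hS⟩ := key
  obtain ⟨c, hc⟩ := hG.exists_code S.finite_toSet
  refine ⟨c, ?_⟩
  rw [← hS, sm]
  congr 1
  ext p
  simp [hc]

variable (G) in
/-- The span of the left translations over the Gaussian integers. -/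
noncomputable def gaussSpan : AddSubgroup (Op G) :=
  AddSubgroup.closure (Set.range lam ∪ Set.range (fun g : G => Complex.I • lam g))

theorem gaussSpan_repr {y : Op G} (hy : y ∈ gaussSpan G) : ∃ l0 l1 l2 l3 : Multiset G,
    y = ((l0.map lam).sum - (l1.map lam).sum) + Complex.I • ((l2.map lam).sum - (l3.map lam).sum) := by
  induction hy using AddSubgroup.closure_induction with
  | mem x hx =>
    rcases hx with ⟨g, rfl⟩ | ⟨g, rfl⟩
    · exact ⟨{g}, 0, 0, 0, by simp⟩
    · exact ⟨0, 0, {g}, 0, by simp⟩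
  | zero => exact ⟨0, 0, 0, 0, by simp⟩
  | add x y _ _ hx hy =>
    obtain ⟨a0, a1, a2, a3, rfl⟩ := hx
    obtain ⟨b0, b1, b2, b3, rfl⟩ := hy
    refine ⟨a0 + b0, a1 + b1, a2 + b2, a3 + b3, ?_⟩
    simp only [Multiset.map_add, Multiset.sum_add]
    module
  | neg x _ hx =>
    obtain ⟨a0, a1, a2, a3, rfl⟩ := hx
    refine ⟨a1, a0, a3, a2, ?_⟩
    module

theorem EC.exists_cop (hG : EC G) {y : Op G} (hy : y ∈ gaussSpan G) (N : ℕ) :
    ∃ c : XC → G, cop c = (((N + 1 : ℕ) : ℂ))⁻¹ • y := by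
  obtain ⟨l0, l1, l2, l3, rfl⟩ := gaussSpan_repr hy
  obtain ⟨c0, h0⟩ := hG.exists_sm l0
  obtain ⟨c1, h1⟩ := hG.exists_sm l1
  obtain ⟨c2, h2⟩ := hG.exists_sm l2
  obtain ⟨c3, h3⟩ := hG.exists_sm l3
  have := hG.infinite
  have : Infinite (Unit → G) := Infinite.of_injective (fun g _ => g) (fun a b h => congrFun h ())
  obtain ⟨S, hS⟩ := Infinite.exists_subset_card_eq (Unit → G) N
  obtain ⟨d, hd⟩ := hG.exists_code S.finite_toSet
  refine ⟨Sum.elim (fun p => ![c0, c1, c2, c3] p.1 p.2) d, ?_⟩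
  rw [← h0, ← h1, ← h2, ← h3, ← hS, ← Set.ncard_coe_finset, ← hd]
  rfl

theorem EC.span_subset_closure (hG : EC G) {T : Op G}
    (hT : T ∈ Submodule.span ℂ (Set.range (lam (G := G)))) : T ∈ closure (Set.range cop) := by
  let B : AddSubmonoid (Op G) :=
    { carrier := {T | ∃ (N : ℕ) (y : Op G), y ∈ gaussSpan G ∧ T = (((N + 1 : ℕ) : ℂ))⁻¹ • y}
      zero_mem' := ⟨0, 0, zero_mem _, by simp⟩
      add_mem' := by
        rintro _ _ ⟨N, y, hy, rfl⟩ ⟨M, z, hz, rfl⟩
        refine ⟨N * M + N + M, (M + 1) • y + (N + 1) • z,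
          add_mem (nsmul_mem hy _) (nsmul_mem hz _), ?_⟩
        have h1 : ((N + 1 : ℕ) : ℂ) ≠ 0 := by exact_mod_cast Nat.succ_ne_zero N
        have h2 : ((M + 1 : ℕ) : ℂ) ≠ 0 := by exact_mod_cast Nat.succ_ne_zero M
        have h3 : ((N * M + N + M + 1 : ℕ) : ℂ) = ((N + 1 : ℕ) : ℂ) * ((M + 1 : ℕ) : ℂ) := by
          push_cast; ring
        rw [h3, ← Nat.cast_smul_eq_nsmul ℂ, ← Nat.cast_smul_eq_nsmul ℂ, smul_add, smul_smul,
          smul_smul]
        congr 2
        · field_simp
        · field_simp }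
  have hB : (B : Set (Op G)) ⊆ Set.range cop := by
    rintro _ ⟨N, y, hy, rfl⟩
    exact hG.exists_cop hy N
  refine closure_mono hB ?_
  have hr : ∀ y ∈ gaussSpan G, ∀ r : ℝ, (r : ℂ) • y ∈ closure (B : Set (Op G)) := by
    intro y hy r
    refine Rat.denseRange_cast.induction_on r
      (isClosed_closure.preimage (f := fun r : ℝ => (r : ℂ) • y) (by fun_prop)) (fun q => ?_)
    refine subset_closure ⟨q.den - 1, q.num • y, zsmul_mem hy _, ?_⟩
    rw [Nat.sub_add_cancel q.pos, ← Int.cast_smul_eq_zsmul ℂ, smul_smul]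
    congr 1
    rw [Complex.ofReal_ratCast, Rat.cast_def, div_eq_inv_mul]
  obtain ⟨n, f, g, rfl⟩ := Submodule.mem_span_set'.1 hT
  refine (B.topologicalClosure.sum_mem fun i _ => ?_ : _ ∈ B.topologicalClosure)
  obtain ⟨h, hh⟩ := (g i).2
  have e : f i • (g i : Op G) = ((f i).re : ℂ) • lam h + ((f i).im : ℂ) • (Complex.I • lam h) := by
    rw [smul_smul, ← add_smul, Complex.re_add_im, hh]
  rw [e]
  exact B.topologicalClosure.add_mem
    (hr _ (AddSubgroup.subset_closure (Or.inl ⟨h, rfl⟩)) _)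
    (hr _ (AddSubgroup.subset_closure (Or.inr ⟨h, rfl⟩)) _)

theorem EC.exists_cop_near (hG : EC G) {T : Op G} (hM : T ∈ Mcom G) {r : ℝ} (hT : ‖T‖ ≤ r)
    {ε : ℝ} (hε : 0 < ε) : ∃ c : XC → G, ‖cop c‖ ≤ r ∧ n2 (cop c - T) < ε := by
  rcases ((norm_nonneg T).trans hT).eq_or_lt with rfl | hr
  · obtain ⟨c, hc⟩ := hG.exists_cop (zero_mem _) 0
    have h0 : T = 0 := norm_le_zero_iff.1 hT
    rw [smul_zero] at hc
    refine ⟨c, by simp [hc], ?_⟩
    rw [hc, h0, sub_zero]
    exact ((n2_le _).trans_eq norm_zero).trans_lt hε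
  · have hr' : (r : ℂ) ≠ 0 := by exact_mod_cast hr.ne'
    have hnr : ‖(r : ℂ)‖ = r := by simp [abs_of_pos hr]
    obtain ⟨δ, hδ0, hδ1, hδ2⟩ : ∃ δ : ℝ, 0 < δ ∧ δ ≤ r ∧ 3 * δ ≤ ε :=
      ⟨min r (ε / 3), by positivity, min_le_left _ _, by
        have := min_le_right r (ε / 3); linarith⟩
    obtain ⟨b, hb1, hb2, hb3⟩ := kaplansky (SMulMemClass.smul_mem (r : ℂ)⁻¹ hM) (by
      rw [norm_smul, norm_inv, hnr, inv_mul_le_iff₀ hr, mul_one]; exact hT) (div_pos hδ0 hr)
    have hb4 : ((r - δ : ℝ) : ℂ) • b ∈ closure (Set.range (cop (G := G))) := by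
      have h1 : ((r - δ : ℝ) : ℂ) • b ∈
          (Submodule.span ℂ (Set.range (lam (G := G)))).topologicalClosure :=
        Submodule.smul_mem _ _ hb1
      exact closure_minimal (fun x hx => hG.span_subset_closure hx) isClosed_closure h1
    obtain ⟨_, ⟨c, rfl⟩, hc⟩ := Metric.mem_closure_iff.1 hb4 δ hδ0
    rw [dist_comm, dist_eq_norm] at hc
    have hn : ‖((r - δ : ℝ) : ℂ)‖ = r - δ := by
      rw [Complex.norm_real, Real.norm_eq_abs, abs_of_nonneg (by linarith)]
    refine ⟨c, ?_, ?_⟩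
    · have h1 : ‖cop c‖ ≤ ‖cop c - ((r - δ : ℝ) : ℂ) • b‖ + ‖((r - δ : ℝ) : ℂ) • b‖ :=
        norm_le_norm_sub_add _ _
      rw [norm_smul, hn] at h1
      nlinarith
    · have e : cop c - T = (cop c - ((r - δ : ℝ) : ℂ) • b) +
          ((r : ℂ) • (b - (r : ℂ)⁻¹ • T) + (-(δ : ℂ)) • b) := by
        rw [smul_sub, smul_smul, mul_inv_cancel₀ hr', one_smul]
        push_cast
        module
      have h1 := n2_le (cop c - ((r - δ : ℝ) : ℂ) • b)
      have h2 : n2 ((r : ℂ) • (b - (r : ℂ)⁻¹ • T)) < δ := by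
        rw [n2_smul, hnr]
        rwa [lt_div_iff₀' hr] at hb3
      have h3 : n2 ((-(δ : ℂ)) • b) ≤ δ := by
        rw [n2_smul, norm_neg, Complex.norm_real, Real.norm_eq_abs, abs_of_pos hδ0]
        have := n2_le b
        nlinarith
      rw [e]
      have h4 := n2_add_le (cop c - ((r - δ : ℝ) : ℂ) • b)
        ((r : ℂ) • (b - (r : ℂ)⁻¹ • T) + (-(δ : ℂ)) • b)
      have h5 := n2_add_le ((r : ℂ) • (b - (r : ℂ)⁻¹ • T)) ((-(δ : ℂ)) • b)
      linarith

theorem EC.norm_le_iff (hG : EC G) (T : Op G) {r : ℝ} (hr : 0 ≤ r) :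
    ‖T‖ ≤ r ↔ ∀ c : XC → G, n2 (T * num c) ≤ r * n2 (num c) := by
  constructor
  · intro h c
    exact (n2_mul_le _ _).trans (mul_le_mul_of_nonneg_right h (n2_nonneg _))
  · intro h
    refine T.opNorm_le_bound hr fun ξ => ?_
    have hc : IsClosed {ξ : SqSum G | ‖T ξ‖ ≤ r * ‖ξ‖} := isClosed_le (by fun_prop) (by fun_prop)
    refine hc.closure_subset_iff.2 ?_ (mem_closure_span_dl ξ)
    rintro _ ⟨S, hS, rfl⟩
    have hc' : IsClosed {S : Op G | ‖T (S (dl 1))‖ ≤ r * ‖S (dl 1)‖} :=
      isClosed_le (by fun_prop) (by fun_prop)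
    refine hc'.closure_subset_iff.2 ?_ (hG.span_subset_closure hS)
    rintro _ ⟨c, rfl⟩
    have h1 := h c
    rw [num_eq, mul_smul_comm, n2_smul, n2_smul, mul_left_comm] at h1
    have h2 : 0 < ‖(den c : ℂ)‖ := norm_pos_iff.2 (by exact_mod_cast (den_pos c).ne')
    exact le_of_mul_le_mul_left h1 h2

end

/-- Value of a monomial in the variables and their adjoints. -/
def wd {A : Type u} [Monoid A] [Star A] {ι : Type} (x : ι → A) (w : List (ι × Bool)) : A :=
  (w.map fun p => cond p.2 (star (x p.1)) (x p.1)).prod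

theorem Zn.sm_apply {α : Type} {ξ : ∀ (G : Type u) [Group G], (α → G) → SqSum G}
    (h : Zn (fun G _ (v : α ⊕ Unit → G) => ξ G (fun a => v (Sum.inl a)) (v (Sum.inr ()))))
    (c : Cd Bool → α) (b : Bool) :
    Zn (fun G _ (v : α ⊕ Unit → G) => cond b (star (sm (fun k => v (Sum.inl (c k)))))
      (sm (fun k => v (Sum.inl (c k)))) (ξ G (fun a => v (Sum.inl a))) (v (Sum.inr ()))) := by
  cases b
  · have h1 := (h.subst (fun G _ (v : (α ⊕ Unit) ⊕ Bool → G) => Sum.elim
      (fun a => v (Sum.inl (Sum.inl a)))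
      (fun _ => (v (Sum.inr true))⁻¹ * v (Sum.inl (Sum.inr ())))) (by
        rintro (a | a)
        · exact Tm.var _
        · exact (Tm.var _).inv.mul (Tm.var _))).sum
      (c := fun G _ v k => v (Sum.inl (c k))) (fun k => Tm.var _)
    refine h1.congr (fun G _ hG v => ?_)
    simp only [cond_false, sm, sum_apply, lp.coeFn_sum, Finset.sum_apply, lam_apply]
    rfl
  · have h1 := (h.subst (fun G _ (v : (α ⊕ Unit) ⊕ Bool → G) => Sum.elim
      (fun a => v (Sum.inl (Sum.inl a)))
      (fun _ => (v (Sum.inr true)) * v (Sum.inl (Sum.inr ())))) (by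
        rintro (a | a)
        · exact Tm.var _
        · exact (Tm.var _).mul (Tm.var _))).sum
      (c := fun G _ v k => v (Sum.inl (c k))) (fun k => Tm.var _)
    refine h1.congr (fun G _ hG v => ?_)
    simp only [cond_true, sm, star_sum, star_lam, sum_apply, lp.coeFn_sum, Finset.sum_apply,
      lam_apply, inv_inv]
    rfl

theorem Zn.wd_apply {ι : Type} (w : List (ι × Bool)) :
    Zn.{u} (fun G _ (v : (ι × XC) ⊕ Unit → G) =>
      wd (fun i => num (fun k => v (Sum.inl (i, k)))) w (dl 1) (v (Sum.inr ()))) := by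
  classical
  induction w with
  | nil =>
    refine (Zn.ofCn (Cn.ite (Df.eq (Tm.var (Sum.inr ())) Tm.one))).congr (fun G _ hG v => ?_)
    simp only [wd, List.map_nil, List.prod_nil, one_apply_eq_self, dl_apply]
    split_ifs <;> simp
  | cons p w ih =>
    obtain ⟨i, b⟩ := p
    have h := fun j : Fin 4 => Zn.sm_apply
      (ξ := fun G _ v => wd (fun i => num (fun k => v (i, k))) w (dl 1)) ih
      (fun k => (i, Sum.inl (j, k))) b
    cases b
    · refine (((h 0).sub (h 1)).add ((h 2).sub (h 3)).mulI).congr (fun G _ hG v => ?_)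
      rfl
    · refine (((h 0).sub (h 1)).sub ((h 2).sub (h 3)).mulI).congr (fun G _ hG v => ?_)
      have e : star (num (fun k => v (Sum.inl (i, k)))) =
          (star (sm (fun k => v (Sum.inl (i, Sum.inl (0, k))))) -
            star (sm (fun k => v (Sum.inl (i, Sum.inl (1, k)))))) -
          Complex.I • (star (sm (fun k => v (Sum.inl (i, Sum.inl (2, k))))) -
            star (sm (fun k => v (Sum.inl (i, Sum.inl (3, k)))))) := by
        rw [num, star_add, star_smul, star_sub, star_sub, Complex.star_def, Complex.conj_I,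
          neg_smul, sub_eq_add_neg _ (Complex.I • _)]
      simp only [wd, List.map_cons, List.prod_cons, cond_true]
      rw [e]
      rfl

theorem Zn.tr_wd {ι : Type} (w : List (ι × Bool)) :
    Zn.{u} (fun G _ (v : ι × XC → G) => groupTr G (wd (fun i => num (fun k => v (i, k))) w)) := by
  refine ((Zn.wd_apply w).subst (fun G _ (v : ι × XC → G) => Sum.elim v (fun _ => 1)) ?_).congr
    (fun G _ hG v => groupTr_eq _)
  rintro (a | a)
  · exact Tm.var _
  · exact Tm.one

theorem Cn.den {α : Type} (f : XC → α) : Cn.{u} (fun G _ (v : α → G) => den (fun k => v (f k))) :=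
  (Cn.card_fs.subst (fun G _ (v : α → G) k => v (f (Sum.inr k))) (fun _ => Tm.var _)).add
    (Cn.const 1)

theorem Df.norm_cop_le (r : ℕ) : Df false EC.{u} (fun G _ (c : XC → G) => ‖cop c‖ ≤ r) := by
  have h1 := Zn.tr_wd.{u} [(false, true), (true, true), (true, false), (false, false)]
  have h2 := Zn.mulCn ((((Cn.const r).mul (Cn.den (fun k => (true, k))))).mul
    ((Cn.const r).mul (Cn.den (fun k => (true, k))))) (Zn.tr_wd.{u} [(false, true), (false, false)])
  have h3 := (h1.re_le h2).subst (fun G _ (v : XC ⊕ XC → G) p =>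
    cond p.1 (v (Sum.inl p.2)) (v (Sum.inr p.2))) (by
      rintro ⟨b, k⟩
      cases b
      · exact Tm.var _
      · exact Tm.var _)
  have h4 : Df false EC.{u} (fun G _ (c : XC → G) => ∀ d : XC → G,
      (groupTr G (star (num c * num d) * (num c * num d))).re ≤
        ((((r * den c) * (r * den c) : ℕ) : ℂ) * groupTr G (star (num d) * num d)).re) := by
    refine Df.allT XC (h3.congr (fun G _ hG v => ?_))
    simp only [wd, List.map_cons, List.map_nil, List.prod_cons, List.prod_nil, cond_true,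
      cond_false, mul_one, star_mul, mul_assoc]
  refine h4.congr (fun G _ hG c => ?_)
  have e : ‖cop c‖ ≤ r ↔ ‖num c‖ ≤ r * den c := by
    have h5 : (0 : ℝ) < den c := by exact_mod_cast den_pos c
    rw [num_eq, norm_smul, Complex.norm_natCast, mul_comm (r : ℝ), mul_le_mul_iff_right₀ h5]
  rw [e, hG.norm_le_iff _ (by positivity)]
  refine forall_congr' fun d => ?_
  rw [groupTr_star_mul, ← Complex.ofReal_natCast, Complex.re_ofReal_mul, groupTr_star_mul]
  push_cast
  rw [← sq, ← mul_pow, sq_le_sq₀ (n2_nonneg _) (mul_nonneg (by positivity) (n2_nonneg _))]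

end Pool.Agent.P.MP_6c8412_lc
end

-- part Pool.Agent.P.MP_6c8412_lc.Cont
section

set_option linter.unusedVariables false
set_option linter.unusedSectionVars false

namespace Pool.Agent.P.MP_6c8412_lc

universe u

section unfold

variable {A : Type u} [NormedRing A] [StarRing A] [Module ℂ A] {n : ℕ} (x : Fin n → A)

theorem termVal_var (i : Fin n) : termVal x (.var i) = x i := rfl
theorem termVal_zero : termVal x .zero = 0 := rfl
theorem termVal_one : termVal x .one = 1 := rfl
theorem termVal_add (s t : OpTerm n) : termVal x (.add s t) = termVal x s + termVal x t := rfl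
theorem termVal_mul (s t : OpTerm n) : termVal x (.mul s t) = termVal x s * termVal x t := rfl
theorem termVal_adj (t : OpTerm n) : termVal x (.adj t) = star (termVal x t) := rfl
theorem termVal_smul (c : ℂ) (t : OpTerm n) : termVal x (.smul c t) = c • termVal x t := rfl

variable (M : Set A) (τ : A → ℂ)

theorem formVal_reTr (t : OpTerm n) : formVal M τ (.reTr t) x = (τ (termVal x t)).re := rfl
theorem formVal_imTr (t : OpTerm n) : formVal M τ (.imTr t) x = (τ (termVal x t)).im := rfl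
theorem formVal_dist2 (s t : OpTerm n) : formVal M τ (.dist2 s t) x =
    √(τ (star (termVal x s - termVal x t) * (termVal x s - termVal x t))).re := rfl
theorem formVal_conn (k : ℕ) (c : C(Fin k → ℝ, ℝ)) (φ : Fin k → OpForm n) :
    formVal M τ (.conn k c φ) x = c (fun i => formVal M τ (φ i) x) := rfl
theorem formVal_supB (r : ℕ) (φ : OpForm (n + 1)) : formVal M τ (.supB r φ) x =
    ⨆ y : {y : A // y ∈ M ∧ ‖y‖ ≤ r}, formVal M τ φ (Fin.cons y.1 x) := rfl
theorem formVal_infB (r : ℕ) (φ : OpForm (n + 1)) : formVal M τ (.infB r φ) x =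
    ⨅ y : {y : A // y ∈ M ∧ ‖y‖ ≤ r}, formVal M τ φ (Fin.cons y.1 x) := rfl

end unfold

/-- Tuples in a ball of the commutant. -/
def InB {G : Type u} [Group G] {n : ℕ} (R : ℝ) (x : Fin n → Op G) : Prop :=
  ∀ i, x i ∈ Mcom G ∧ ‖x i‖ ≤ R

/-- Tuples close in the trace norm. -/
def Near {G : Type u} [Group G] {n : ℕ} (δ : ℝ) (x y : Fin n → Op G) : Prop :=
  ∀ i, n2 (x i - y i) ≤ δ

/-- Value of a formula in the group von Neumann algebra. -/
noncomputable abbrev fv (G : Type u) [Group G] {n : ℕ} (φ : OpForm n) (x : Fin n → Op G) : ℝ :=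
  formVal (groupVN G) (groupTr G) φ x

theorem InB.mono {G : Type u} [Group G] {n : ℕ} {R R' : ℝ} {x : Fin n → Op G} (h : InB R x)
    (hR : R ≤ R') : InB R' x := fun i => ⟨(h i).1, (h i).2.trans hR⟩

theorem InB.cons {G : Type u} [Group G] {n : ℕ} {R r : ℝ} {x : Fin n → Op G} (h : InB R x)
    {y : Op G} (hy : y ∈ Mcom G) (hr : ‖y‖ ≤ r) :
    InB (max R r) (Fin.cons y x : Fin (n + 1) → Op G) := by
  intro i
  induction i using Fin.cases with
  | zero => exact ⟨hy, hr.trans (le_max_right _ _)⟩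
  | succ i => exact ⟨(h i).1, (h i).2.trans (le_max_left _ _)⟩

theorem Near.cons {G : Type u} [Group G] {n : ℕ} {δ : ℝ} {x x' : Fin n → Op G} (h : Near δ x x')
    {y y' : Op G} (hy : n2 (y - y') ≤ δ) :
    Near δ (Fin.cons y x : Fin (n + 1) → Op G) (Fin.cons y' x') := by
  intro i
  induction i using Fin.cases with
  | zero => exact hy
  | succ i => exact h i

theorem n2_zero {G : Type u} [Group G] : n2 (0 : Op G) = 0 := by simp [n2]

theorem Near.refl {G : Type u} [Group G] {n : ℕ} {δ : ℝ} (hδ : 0 ≤ δ) (x : Fin n → Op G) :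
    Near δ x x := fun i => by rw [sub_self, n2_zero]; exact hδ

theorem termVal_mem {G : Type u} [Group G] {n : ℕ} {x : Fin n → Op G} (hx : ∀ i, x i ∈ Mcom G)
    (t : OpTerm n) : termVal x t ∈ Mcom G := by
  induction t with
  | var i => exact hx i
  | zero => exact zero_mem _
  | one => exact one_mem _
  | add s t hs ht => exact add_mem hs ht
  | mul s t hs ht => exact mul_mem hs ht
  | adj t ht => exact star_mem ht
  | smul c t ht => exact SMulMemClass.smul_mem c ht

theorem term_bound {n : ℕ} (t : OpTerm n) (R : ℝ) : ∃ C : ℝ, 0 ≤ C ∧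
    ∀ (G : Type u) [Group G] (x : Fin n → Op G), InB R x → ‖termVal x t‖ ≤ C ∧
      ∀ (y : Fin n → Op G) (δ : ℝ), 0 ≤ δ → InB R y → Near δ x y →
        n2 (termVal x t - termVal y t) ≤ C * δ := by
  induction t with
  | var i =>
    exact ⟨max R 1, by positivity, fun G _ x hx => ⟨(hx i).2.trans (le_max_left _ _),
      fun y δ hδ hy h => (h i).trans (le_mul_of_one_le_left hδ (le_max_right _ _))⟩⟩
  | zero =>
    exact ⟨0, le_rfl, fun G _ x hx => ⟨by simp [termVal_zero], fun y δ hδ hy h => by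
      simp [termVal_zero, n2_zero]⟩⟩
  | one =>
    exact ⟨1, zero_le_one, fun G _ x hx => ⟨ContinuousLinearMap.norm_id_le, fun y δ hδ hy h => by
      simp [termVal_one, n2_zero, hδ]⟩⟩
  | add s t hs ht =>
    obtain ⟨C, hC, hs⟩ := hs
    obtain ⟨D, hD, ht⟩ := ht
    refine ⟨C + D, by positivity, fun G _ x hx => ⟨(norm_add_le _ _).trans
      (add_le_add (hs G x hx).1 (ht G x hx).1), fun y δ hδ hy h => ?_⟩⟩
    rw [termVal_add, termVal_add, add_sub_add_comm, add_mul]
    exact (n2_add_le _ _).trans (add_le_add ((hs G x hx).2 y δ hδ hy h) ((ht G x hx).2 y δ hδ hy h))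
  | mul s t hs ht =>
    obtain ⟨C, hC, hs⟩ := hs
    obtain ⟨D, hD, ht⟩ := ht
    refine ⟨2 * (C * D), by positivity, fun G _ x hx => ⟨?_, fun y δ hδ hy h => ?_⟩⟩
    · have := (norm_mul_le _ _).trans (mul_le_mul (hs G x hx).1 (ht G x hx).1 (norm_nonneg _) hC)
      rw [termVal_mul]
      nlinarith [mul_nonneg hC hD]
    · have e : termVal x (.mul s t) - termVal y (.mul s t) =
          termVal x s * (termVal x t - termVal y t) + (termVal x s - termVal y s) * termVal y t := by
        rw [termVal_mul, termVal_mul]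
        noncomm_ring
      have h1 := (n2_mul_le (termVal x s) _).trans
        (mul_le_mul (hs G x hx).1 ((ht G x hx).2 y δ hδ hy h) (n2_nonneg _) hC)
      have h2 := (n2_mul_le' (sub_mem (termVal_mem (fun i => (hx i).1) s)
        (termVal_mem (fun i => (hy i).1) s)) (termVal_mem (fun i => (hy i).1) t)).trans
        (mul_le_mul ((hs G x hx).2 y δ hδ hy h) (ht G y hy).1 (norm_nonneg _) (by positivity))
      rw [e]
      refine (n2_add_le _ _).trans ((add_le_add h1 h2).trans_eq (by ring))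
  | adj t ht =>
    obtain ⟨C, hC, ht⟩ := ht
    refine ⟨C, hC, fun G _ x hx => ⟨by rw [termVal_adj, norm_star]; exact (ht G x hx).1,
      fun y δ hδ hy h => ?_⟩⟩
    rw [termVal_adj, termVal_adj, ← star_sub, n2_star (sub_mem (termVal_mem (fun i => (hx i).1) t)
        (termVal_mem (fun i => (hy i).1) t))]
    exact (ht G x hx).2 y δ hδ hy h
  | smul c t ht =>
    obtain ⟨C, hC, ht⟩ := ht
    refine ⟨‖c‖ * C, by positivity, fun G _ x hx => ⟨?_, fun y δ hδ hy h => ?_⟩⟩
    · rw [termVal_smul, norm_smul]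
      exact mul_le_mul_of_nonneg_left (ht G x hx).1 (norm_nonneg _)
    · rw [termVal_smul, termVal_smul, ← smul_sub, n2_smul, mul_assoc]
      exact mul_le_mul_of_nonneg_left ((ht G x hx).2 y δ hδ hy h) (norm_nonneg _)

/-- Bounded and uniformly continuous on balls, uniformly in the group. -/
def Good {n : ℕ} (F : ∀ (G : Type u) [Group G], (Fin n → Op G) → ℝ) : Prop :=
  ∀ R : ℝ, (∃ C : ℝ, ∀ (G : Type u) [Group G] (x : Fin n → Op G), InB R x → |F G x| ≤ C) ∧
    ∀ ε > 0, ∃ δ > 0, ∀ (G : Type u) [Group G] (x y : Fin n → Op G), InB R x → InB R y →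
      Near δ x y → |F G x - F G y| ≤ ε

theorem good_of_term {n : ℕ} (t : OpTerm n) (f : ∀ (G : Type u) [Group G], Op G → ℝ)
    (h0 : ∀ (G : Type u) [Group G], f G 0 = 0)
    (hf : ∀ (G : Type u) [Group G] (S T : Op G), |f G S - f G T| ≤ n2 (S - T)) :
    Good (fun G _ x => f G (termVal x t)) := by
  intro R
  obtain ⟨C, hC, h⟩ := term_bound.{u} t R
  refine ⟨⟨C, fun G _ x hx => ?_⟩, fun ε hε => ⟨ε / (C + 1), by positivity,
    fun G _ x y hx hy hxy => ?_⟩⟩
  · have := hf G (termVal x t) 0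
    rw [h0, sub_zero, sub_zero] at this
    exact this.trans ((n2_le _).trans (h G x hx).1)
  · refine (hf G _ _).trans (((h G x hx).2 y _ (by positivity) hy hxy).trans ?_)
    rw [mul_div_assoc', div_le_iff₀ (by positivity)]
    nlinarith

theorem ball_nonempty (G : Type u) [Group G] (r : ℕ) :
    Nonempty {y : Op G // y ∈ groupVN G ∧ ‖y‖ ≤ r} :=
  ⟨⟨0, mem_groupVN_of_span (Submodule.zero_mem _), by simp⟩⟩

theorem abs_ciSup_le {ι : Type u} [Nonempty ι] {f : ι → ℝ} {C : ℝ} (h : ∀ i, |f i| ≤ C) :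
    BddAbove (Set.range f) ∧ |⨆ i, f i| ≤ C := by
  have hb : BddAbove (Set.range f) := ⟨C, by rintro _ ⟨i, rfl⟩; exact (abs_le.1 (h i)).2⟩
  obtain ⟨i⟩ := ‹Nonempty ι›
  exact ⟨hb, abs_le.2 ⟨(abs_le.1 (h i)).1.trans (le_ciSup hb i),
    ciSup_le fun j => (abs_le.1 (h j)).2⟩⟩

theorem abs_ciInf_le {ι : Type u} [Nonempty ι] {f : ι → ℝ} {C : ℝ} (h : ∀ i, |f i| ≤ C) :
    BddBelow (Set.range f) ∧ |⨅ i, f i| ≤ C := by
  have hb : BddBelow (Set.range f) := ⟨-C, by rintro _ ⟨i, rfl⟩; exact (abs_le.1 (h i)).1⟩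
  obtain ⟨i⟩ := ‹Nonempty ι›
  exact ⟨hb, abs_le.2 ⟨le_ciInf fun j => (abs_le.1 (h j)).1,
    (ciInf_le hb i).trans (abs_le.1 (h i)).2⟩⟩

theorem good_fv {n : ℕ} (φ : OpForm n) : Good.{u} (fun G _ x => fv G φ x) := by
  induction φ with
  | reTr t =>
    refine good_of_term t (fun G _ T => (groupTr G T).re) (fun G _ => by simp [groupTr_zero])
      (fun G _ S T => ?_)
    rw [← Complex.sub_re, ← groupTr_sub]
    exact (Complex.abs_re_le_norm _).trans (norm_groupTr_le _)
  | imTr t =>
    refine good_of_term t (fun G _ T => (groupTr G T).im) (fun G _ => by simp [groupTr_zero])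
      (fun G _ S T => ?_)
    rw [← Complex.sub_im, ← groupTr_sub]
    exact (Complex.abs_im_le_norm _).trans (norm_groupTr_le _)
  | dist2 s t =>
    have := good_of_term (.add s (.smul (-1) t)) (fun G _ T => n2 T) (fun G _ => n2_zero)
      (fun G _ S T => abs_norm_sub_norm_le _ _)
    have e : ∀ (G : Type u) [Group G] (x : _ → Op G), fv G (.dist2 s t) x =
        n2 (termVal x (.add s (.smul (-1) t))) := by
      intro G _ x
      rw [fv, formVal_dist2, groupTr_star_mul, Real.sqrt_sq (n2_nonneg _), termVal_add,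
        termVal_smul, neg_one_smul, sub_eq_add_neg]
    simp only [e]
    exact this
  | conn k c φ ih =>
    intro R
    choose C hC using fun i => (ih i R).1
    have hK : IsCompact (Set.pi Set.univ fun i => Set.Icc (-C i) (C i)) :=
      isCompact_univ_pi fun i => isCompact_Icc
    have hmem : ∀ (G : Type u) [Group G] (x : _ → Op G), InB R x →
        (fun i => fv G (φ i) x) ∈ Set.pi Set.univ fun i => Set.Icc (-C i) (C i) :=
      fun G _ x hx i _ => abs_le.1 (hC i G x hx)
    obtain ⟨D, hD⟩ := hK.exists_bound_of_continuousOn c.continuous.continuousOn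
    refine ⟨⟨D, fun G _ x hx => hD _ (hmem G x hx)⟩, fun ε hε => ?_⟩
    obtain ⟨η, hη, h1⟩ := Metric.uniformContinuousOn_iff_le.1
      (hK.uniformContinuousOn_of_continuous c.continuous.continuousOn) ε hε
    choose δ hδ h2 using fun i => (ih i R).2 η hη
    obtain ⟨δ', h3, h4⟩ : ∃ δ' > 0, ∀ i, δ' ≤ δ i := by
      rcases isEmpty_or_nonempty (Fin k) with _ | _
      · exact ⟨1, one_pos, fun i => isEmptyElim i⟩
      · obtain ⟨j, hj⟩ := Finite.exists_min δ
        exact ⟨δ j, hδ j, hj⟩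
    refine ⟨δ', h3, fun G _ x y hx hy hxy => ?_⟩
    exact h1 _ (hmem G x hx) _ (hmem G y hy) ((dist_pi_le_iff hη.le).2 fun i =>
      h2 i G x y hx hy fun j => (hxy j).trans (h4 i))
  | supB r φ ih =>
    intro R
    obtain ⟨⟨C, hC⟩, h⟩ := ih (max R r)
    have hb : ∀ (G : Type u) [Group G] (x : _ → Op G), InB R x →
        ∀ y : {y : Op G // y ∈ groupVN G ∧ ‖y‖ ≤ r}, |fv G φ (Fin.cons y.1 x)| ≤ C :=
      fun G _ x hx y => hC G _ (hx.cons (groupVN_subset y.2.1) y.2.2)
    refine ⟨⟨C, fun G _ x hx => ?_⟩, fun ε hε => ?_⟩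
    · have := ball_nonempty G r
      exact (abs_ciSup_le (hb G x hx)).2
    · obtain ⟨δ, hδ, h⟩ := h ε hε
      refine ⟨δ, hδ, fun G _ x y hx hy hxy => ?_⟩
      have := ball_nonempty G r
      have h1 : ∀ z : {y : Op G // y ∈ groupVN G ∧ ‖y‖ ≤ r},
          |fv G φ (Fin.cons z.1 x) - fv G φ (Fin.cons z.1 y)| ≤ ε := fun z =>
        h G _ _ (hx.cons (groupVN_subset z.2.1) z.2.2) (hy.cons (groupVN_subset z.2.1) z.2.2)
          (hxy.cons (by rw [sub_self, n2_zero]; exact hδ.le))
      have b1 := (abs_ciSup_le (hb G x hx)).1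
      have b2 := (abs_ciSup_le (hb G y hy)).1
      simp only [fv, formVal_supB]
      rw [abs_sub_le_iff, sub_le_iff_le_add, sub_le_iff_le_add]
      refine ⟨ciSup_le fun z => ?_, ciSup_le fun z => ?_⟩
      · have := le_ciSup b2 z
        have := (abs_le.1 (h1 z)).2
        simp only [fv] at *
        linarith
      · have := le_ciSup b1 z
        have := (abs_le.1 (h1 z)).1
        simp only [fv] at *
        linarith
  | infB r φ ih =>
    intro R
    obtain ⟨⟨C, hC⟩, h⟩ := ih (max R r)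
    have hb : ∀ (G : Type u) [Group G] (x : _ → Op G), InB R x →
        ∀ y : {y : Op G // y ∈ groupVN G ∧ ‖y‖ ≤ r}, |fv G φ (Fin.cons y.1 x)| ≤ C :=
      fun G _ x hx y => hC G _ (hx.cons (groupVN_subset y.2.1) y.2.2)
    refine ⟨⟨C, fun G _ x hx => ?_⟩, fun ε hε => ?_⟩
    · have := ball_nonempty G r
      exact (abs_ciInf_le (hb G x hx)).2
    · obtain ⟨δ, hδ, h⟩ := h ε hε
      refine ⟨δ, hδ, fun G _ x y hx hy hxy => ?_⟩
      have := ball_nonempty G r
      have h1 : ∀ z : {y : Op G // y ∈ groupVN G ∧ ‖y‖ ≤ r},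
          |fv G φ (Fin.cons z.1 x) - fv G φ (Fin.cons z.1 y)| ≤ ε := fun z =>
        h G _ _ (hx.cons (groupVN_subset z.2.1) z.2.2) (hy.cons (groupVN_subset z.2.1) z.2.2)
          (hxy.cons (by rw [sub_self, n2_zero]; exact hδ.le))
      have b1 := (abs_ciInf_le (hb G x hx)).1
      have b2 := (abs_ciInf_le (hb G y hy)).1
      simp only [fv, formVal_infB]
      rw [abs_sub_le_iff]
      refine ⟨sub_le_comm.1 (le_ciInf fun z => ?_), sub_le_comm.1 (le_ciInf fun z => ?_)⟩
      · have := ciInf_le b1 z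
        have := (abs_le.1 (h1 z)).2
        simp only [fv] at *
        linarith
      · have := ciInf_le b2 z
        have := (abs_le.1 (h1 z)).1
        simp only [fv] at *
        linarith

end Pool.Agent.P.MP_6c8412_lc
end

-- part Pool.Agent.P.MP_6c8412_lc.Main
section

set_option linter.unusedVariables false
set_option linter.unusedSectionVars false

namespace Pool.Agent.P.MP_6c8412_lc

universe u

/-- Real functions which are bounded and approximately definable on a domain. -/
def AD {α : Type} (Dom : Pr.{u} α) (F : ∀ (G : Type u) [Group G], (α → G) → ℝ) : Prop :=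
  (∃ C : ℝ, ∀ (G : Type u) [Group G] (v : α → G), Dom G v → |F G v| ≤ C) ∧
    ∀ p q : ℝ, p < q → ∃ θ : Pr.{u} α, Df false EC θ ∧ ∀ (G : Type u) [Group G], EC G →
      ∀ v, Dom G v → (F G v ≤ p → θ G v) ∧ (θ G v → F G v ≤ q)

namespace AD

variable {α : Type} {Dom : Pr.{u} α}

theorem congr {F E : ∀ (G : Type u) [Group G], (α → G) → ℝ} (h : AD Dom F)
    (e : ∀ (G : Type u) [Group G] (v : α → G), E G v = F G v) : AD Dom E := by
  have : E = F := by
    funext G _ v
    exact e G v
  rwa [this]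

theorem simple {F : ∀ (G : Type u) [Group G], (α → G) → ℝ} (h : AD Dom F) {η : ℝ} (hη : 0 < η) :
    ∃ (s : Finset ℤ) (θ : ℤ → Pr.{u} α), (∀ m, Df false EC (θ m)) ∧
      ∀ (G : Type u) [Group G], EC G → ∀ v, Dom G v →
        (∃ m ∈ s, θ m G v) ∧ ∀ m, θ m G v → |F G v - m * η| ≤ 2 * η := by
  obtain ⟨⟨C, hC⟩, h⟩ := h
  choose A hA1 hA2 using fun m : ℤ => h (m * η) ((m + 1) * η) (by nlinarith)
  refine ⟨Finset.Icc ⌈-C / η⌉ ⌈C / η⌉, fun m G _ v => A m G v ∧ ¬ A (m - 2) G v,
    fun m => (hA1 m).and (hA1 _).not, fun G _ hG v hv => ⟨⟨⌈F G v / η⌉, ?_, ?_, ?_⟩, ?_⟩⟩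
  · have := abs_le.1 (hC G v hv)
    rw [Finset.mem_Icc]
    exact ⟨Int.ceil_mono (div_le_div_of_nonneg_right this.1 hη.le),
      Int.ceil_mono (div_le_div_of_nonneg_right this.2 hη.le)⟩
  · refine (hA2 _ G hG v hv).1 ?_
    rw [← div_le_iff₀ hη]
    exact Int.le_ceil _
  · intro h1
    have h2 := (hA2 _ G hG v hv).2 h1
    rw [← div_le_iff₀ hη] at h2
    have := Int.ceil_lt_add_one (F G v / η)
    push_cast at h2
    linarith
  · rintro m ⟨h1, h2⟩
    have h3 := (hA2 _ G hG v hv).2 h1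
    have h4 := lt_of_not_ge (fun h5 => h2 ((hA2 _ G hG v hv).1 h5))
    push_cast at h4
    rw [abs_le]
    constructor <;> nlinarith

theorem conn {κ : Type} [Fintype κ] (c : (κ → ℝ) → ℝ) (hc : Continuous c)
    {F : κ → ∀ (G : Type u) [Group G], (α → G) → ℝ} (h : ∀ k, AD Dom (F k)) :
    AD Dom (fun G _ v => c (fun k => F k G v)) := by
  classical
  choose C hC using fun k => (h k).1
  have hK : IsCompact (Set.pi Set.univ fun i => Set.Icc (-(C i + 1)) (C i + 1)) :=
    isCompact_univ_pi fun i => isCompact_Icc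
  have hmem : ∀ (G : Type u) [Group G] (v : α → G), Dom G v →
      (fun i => F i G v) ∈ Set.pi Set.univ fun i => Set.Icc (-(C i + 1)) (C i + 1) :=
    fun G _ v hv i _ => abs_le.1 ((hC i G v hv).trans (by linarith))
  obtain ⟨D, hD⟩ := hK.exists_bound_of_continuousOn hc.continuousOn
  refine ⟨⟨D, fun G _ v hv => hD _ (hmem G v hv)⟩, fun p q hpq => ?_⟩
  obtain ⟨η, hη, h1⟩ := Metric.uniformContinuousOn_iff_le.1
    (hK.uniformContinuousOn_of_continuous hc.continuousOn) ((q - p) / 2) (by linarith)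
  have hη' : 0 < min η 1 / 2 := by positivity
  choose s θ hθ1 hθ2 using fun k => (h k).simple hη'
  have key : ∀ (G : Type u) [Group G], EC G → ∀ v, Dom G v → ∀ m : κ → ℤ,
      (∀ k, θ k (m k) G v) → |c (fun k => F k G v) - c (fun k => m k * (min η 1 / 2))| ≤
        (q - p) / 2 := by
    intro G _ hG v hv m hm
    have h2 : ∀ k, |F k G v - m k * (min η 1 / 2)| ≤ min η 1 := fun k =>
      ((hθ2 k G hG v hv).2 _ (hm k)).trans_eq (by ring)
    refine h1 _ (hmem G v hv) _ (fun k _ => ?_) ((dist_pi_le_iff hη.le).2 fun k =>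
      (h2 k).trans (min_le_left _ _))
    have h3 := abs_le.1 ((h2 k).trans (min_le_right _ _))
    have h4 := abs_le.1 (hC k G v hv)
    constructor <;> linarith
  refine ⟨fun G _ v => ∃ m : Fintype.piFinset s,
    c (fun k => m.1 k * (min η 1 / 2)) ≤ (p + q) / 2 ∧ ∀ k, θ k (m.1 k) G v,
    Df.exists_fin fun m => (Df.const _).and (Df.forall_fin fun k => hθ1 k _),
    fun G _ hG v hv => ⟨fun h2 => ?_, ?_⟩⟩
  · choose m hm1 hm2 using fun k => (hθ2 k G hG v hv).1
    refine ⟨⟨m, Fintype.mem_piFinset.2 hm1⟩, ?_, hm2⟩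
    have := abs_le.1 (key G hG v hv m hm2)
    beta_reduce at h2
    simp only
    linarith
  · rintro ⟨m, h2, h3⟩
    have := abs_le.1 (key G hG v hv m h3)
    beta_reduce
    linarith

theorem lin {F E : ∀ (G : Type u) [Group G], (α → G) → ℝ} (h : AD Dom F) (h' : AD Dom E)
    (a b : ℝ) : AD Dom (fun G _ v => a * F G v + b * E G v) :=
  conn (κ := Bool) (fun w => a * w true + b * w false) (by fun_prop)
    (F := fun k G _ v => cond k (F G v) (E G v)) (by
      intro k
      cases k
      · exact h'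
      · exact h)

theorem zero : AD Dom (fun G _ v => 0) :=
  conn (κ := Empty) (fun _ => 0) continuous_const (F := fun k => k.elim) (fun k => k.elim)

theorem ofZn {Z : ∀ (G : Type u) [Group G], (α → G) → ℂ} (hZ : Zn Z)
    {D : ∀ (G : Type u) [Group G], (α → G) → ℕ} (hD : Cn D)
    (hpos : ∀ (G : Type u) [Group G] (v : α → G), 0 < D G v)
    {F : ∀ (G : Type u) [Group G], (α → G) → ℝ}
    (hF : ∀ (G : Type u) [Group G] (v : α → G), (Z G v).re = D G v * F G v)
    (hb : ∃ C : ℝ, ∀ (G : Type u) [Group G] (v : α → G), Dom G v → |F G v| ≤ C) : AD Dom F := by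
  refine ⟨hb, fun p q hpq => ?_⟩
  obtain ⟨r, h1, h2⟩ := exists_rat_btwn hpq
  have h3 := (Zn.mulCn (Cn.const r.den) hZ).re_le (Zn.intMul r.num (Zn.ofCn hD))
  have key : ∀ (G : Type u) [Group G] (v : α → G),
      ((r.den : ℂ) * Z G v).re ≤ ((r.num : ℂ) * (D G v : ℂ)).re ↔ F G v ≤ r := by
    intro G _ v
    have h4 : (0 : ℝ) < D G v := by exact_mod_cast hpos G v
    have h5 : (0 : ℝ) < r.den := by exact_mod_cast r.pos
    rw [← Complex.ofReal_natCast, Complex.re_ofReal_mul, hF, ← Complex.ofReal_intCast,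
      Complex.re_ofReal_mul, Complex.natCast_re, Rat.cast_def, le_div_iff₀ h5]
    constructor <;> intro h <;> nlinarith
  exact ⟨_, h3, fun G _ hG v hv => ⟨fun h => (key G v).2 (h.trans h1.le),
    fun h => ((key G v).1 h).trans h2.le⟩⟩

end AD

/-- Normal form of a term as a linear combination of monomials. -/
noncomputable def nf {n : ℕ} : OpTerm n → List (ℂ × List (Fin n × Bool))
  | .var i => [(1, [(i, false)])]
  | .zero => []
  | .one => [(1, [])]
  | .add s t => nf s ++ nf t
  | .mul s t => (nf s).flatMap fun a => (nf t).map fun b => (a.1 * b.1, a.2 ++ b.2)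
  | .adj t => (nf t).map fun a => (star a.1, (a.2.map fun p => (p.1, !p.2)).reverse)
  | .smul c t => (nf t).map fun a => (c * a.1, a.2)

section

variable {G : Type u} [Group G]

theorem wd_cons {ι : Type} (x : ι → Op G) (p : ι × Bool) (w : List (ι × Bool)) :
    wd x (p :: w) = cond p.2 (star (x p.1)) (x p.1) * wd x w := by
  simp [wd]

theorem wd_append {ι : Type} (x : ι → Op G) (w w' : List (ι × Bool)) :
    wd x (w ++ w') = wd x w * wd x w' := by
  simp [wd]

theorem star_wd {ι : Type} (x : ι → Op G) (w : List (ι × Bool)) :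
    star (wd x w) = wd x (w.map fun p => (p.1, !p.2)).reverse := by
  induction w with
  | nil => simp [wd]
  | cons p w ih =>
    rw [wd_cons, star_mul, ih, List.map_cons, List.reverse_cons, wd_append]
    obtain ⟨i, b⟩ := p
    cases b <;> simp [wd]

/-- Value of a linear combination of monomials. -/
noncomputable def lc {ι : Type} (x : ι → Op G) (l : List (ℂ × List (ι × Bool))) : Op G :=
  (l.map fun a => a.1 • wd x a.2).sum

theorem lc_cons {ι : Type} (x : ι → Op G) (a : ℂ × List (ι × Bool))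
    (l : List (ℂ × List (ι × Bool))) : lc x (a :: l) = a.1 • wd x a.2 + lc x l := by
  simp [lc]

theorem lc_append {ι : Type} (x : ι → Op G) (l l' : List (ℂ × List (ι × Bool))) :
    lc x (l ++ l') = lc x l + lc x l' := by
  simp [lc]

theorem termVal_eq_lc {n : ℕ} (x : Fin n → Op G) (t : OpTerm n) : termVal x t = lc x (nf t) := by
  induction t with
  | var i => simp [termVal_var, nf, lc, wd]
  | zero => simp [termVal_zero, nf, lc]
  | one => simp [termVal_one, nf, lc, wd]
  | add s t hs ht => rw [termVal_add, hs, ht, nf, lc_append]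
  | mul s t hs ht =>
    rw [termVal_mul, hs, ht, nf]
    induction nf s with
    | nil => simp [lc]
    | cons a l ih =>
      rw [List.flatMap_cons, lc_append, ← ih, lc_cons, add_mul]
      congr 1
      induction nf t with
      | nil => simp [lc]
      | cons b l' ih' =>
        rw [List.map_cons, lc_cons, lc_cons, mul_add, ih', wd_append, smul_mul_smul_comm]
  | adj t ht =>
    rw [termVal_adj, ht, nf]
    induction nf t with
    | nil => simp [lc]
    | cons a l ih => rw [List.map_cons, lc_cons, lc_cons, star_add, ih, star_smul, star_wd]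
  | smul c t ht =>
    rw [termVal_smul, ht, nf]
    induction nf t with
    | nil => simp [lc]
    | cons a l ih => rw [List.map_cons, lc_cons, lc_cons, smul_add, ih, smul_smul]

theorem norm_wd_le {ι : Type} {x : ι → Op G} {R : ℝ} (hx : ∀ i, ‖x i‖ ≤ R) (w : List (ι × Bool)) :
    ‖wd x w‖ ≤ |R| ^ w.length := by
  induction w with
  | nil => exact ContinuousLinearMap.norm_id_le.trans_eq (by simp)
  | cons p w ih =>
    rw [wd_cons, List.length_cons, pow_succ']
    refine (norm_mul_le _ _).trans (mul_le_mul ?_ ih (norm_nonneg _) (abs_nonneg _))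
    obtain ⟨i, b⟩ := p
    cases b
    · exact (hx i).trans (le_abs_self R)
    · exact (norm_star (x i)).trans_le ((hx i).trans (le_abs_self R))

theorem wd_num {ι : Type} (c : ι → XC → G) (w : List (ι × Bool)) :
    wd (fun i => num (c i)) w =
      (((w.map fun p => den (c p.1)).prod : ℕ) : ℂ) • wd (fun i => cop (c i)) w := by
  induction w with
  | nil => simp [wd]
  | cons p w ih =>
    rw [wd_cons, wd_cons, ih, List.map_cons, List.prod_cons, Nat.cast_mul, ← smul_mul_smul_comm]
    congr 1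
    obtain ⟨i, b⟩ := p
    cases b
    · exact num_eq _
    · simp only [cond_true]
      rw [num_eq, star_smul]
      simp

end

/-- The tuple of operators coded by `v`. -/
noncomputable def cops {G : Type u} [Group G] {n : ℕ} (v : Fin n × XC → G) : Fin n → Op G :=
  fun i => cop (fun k => v (i, k))

/-- Codes of tuples of operators of norm at most `R`. -/
def DomR (n : ℕ) (R : ℝ) : Pr.{u} (Fin n × XC) := fun G _ v => ∀ i, ‖cops v i‖ ≤ R

theorem DomR.inB {n : ℕ} {R : ℝ} {G : Type u} [Group G] {v : Fin n × XC → G}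
    (h : DomR n R G v) : InB R (cops v) := fun i => ⟨span_le_Mcom (cop_mem _), h i⟩

theorem ad_wd {n : ℕ} (R : ℝ) (w : List (Fin n × Bool)) :
    AD (DomR.{u} n R) (fun G _ v => (groupTr G (wd (cops v) w)).re) ∧
    AD (DomR.{u} n R) (fun G _ v => (groupTr G (wd (cops v) w)).im) := by
  have hD : Cn.{u} (fun G _ (v : Fin n × XC → G) =>
      (w.map fun p => den (fun k => v (p.1, k))).prod) := by
    induction w with
    | nil => exact Cn.const 1
    | cons p w ih => exact (Cn.den (fun k => (p.1, k))).mul ih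
  have hpos : ∀ (G : Type u) [Group G] (v : Fin n × XC → G),
      0 < (w.map fun p => den (fun k => v (p.1, k))).prod := fun G _ v =>
    List.prod_pos (by
      intro a ha
      obtain ⟨p, -, rfl⟩ := List.mem_map.1 ha
      exact den_pos _)
  have hb : ∀ (G : Type u) [Group G] (v : Fin n × XC → G), DomR n R G v →
      ‖groupTr G (wd (cops v) w)‖ ≤ |R| ^ w.length := fun G _ v hv =>
    (norm_groupTr_le _).trans ((n2_le _).trans (norm_wd_le hv w))
  constructor
  · refine AD.ofZn (Zn.tr_wd w) hD hpos (fun G _ v => ?_)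
      ⟨_, fun G _ v hv => (Complex.abs_re_le_norm _).trans (hb G v hv)⟩
    rw [wd_num (fun i k => v (i, k)), groupTr_smul, ← Complex.ofReal_natCast,
      Complex.re_ofReal_mul]
    rfl
  · refine AD.ofZn (Zn.tr_wd w).mulI.neg hD hpos (fun G _ v => ?_)
      ⟨_, fun G _ v hv => (Complex.abs_im_le_norm _).trans (hb G v hv)⟩
    rw [wd_num (fun i k => v (i, k)), groupTr_smul, ← Complex.ofReal_natCast, Complex.neg_re,
      Complex.I_mul_re, neg_neg, Complex.im_ofReal_mul]
    rfl

theorem ad_term {n : ℕ} (R : ℝ) (t : OpTerm n) :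
    AD (DomR.{u} n R) (fun G _ v => (groupTr G (termVal (cops v) t)).re) ∧
    AD (DomR.{u} n R) (fun G _ v => (groupTr G (termVal (cops v) t)).im) := by
  simp only [termVal_eq_lc]
  induction nf t with
  | nil =>
    exact ⟨AD.zero.congr (fun G _ v => by simp [lc, groupTr_zero]),
      AD.zero.congr (fun G _ v => by simp [lc, groupTr_zero])⟩
  | cons a l ih =>
    obtain ⟨h1, h2⟩ := ad_wd.{u} R a.2
    constructor
    · refine ((h1.lin h2 a.1.re (-a.1.im)).lin ih.1 1 1).congr (fun G _ v => ?_)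
      rw [lc_cons, groupTr_add, groupTr_smul, Complex.add_re, Complex.mul_re]
      ring
    · refine ((h1.lin h2 a.1.im a.1.re).lin ih.2 1 1).congr (fun G _ v => ?_)
      rw [lc_cons, groupTr_add, groupTr_smul, Complex.add_im, Complex.mul_im]
      ring

/-- Adding the code of one more operator. -/
def consC {G : Type u} {n : ℕ} (d : XC → G) (v : Fin n × XC → G) : Fin (n + 1) × XC → G :=
  fun p => (Fin.cons d (fun i k => v (i, k)) : Fin (n + 1) → XC → G) p.1 p.2

theorem cops_consC {G : Type u} [Group G] {n : ℕ} (d : XC → G) (v : Fin n × XC → G) :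
    cops (consC d v) = Fin.cons (cop d) (cops v) := by
  funext i
  induction i using Fin.cases with
  | zero => rfl
  | succ i => rfl

theorem DomR.cons {n : ℕ} {R r : ℝ} {G : Type u} [Group G] {v : Fin n × XC → G}
    (h : DomR n R G v) {d : XC → G} (hd : ‖cop d‖ ≤ r) : DomR (n + 1) (max R r) G (consC d v) := by
  intro i
  rw [cops_consC]
  exact (h.inB.cons (span_le_Mcom (cop_mem d)) hd i).2

theorem Df.consC {n : ℕ} {θ : Pr.{u} (Fin (n + 1) × XC)} (h : Df false EC θ) :
    Df false EC (fun G _ (w : (Fin n × XC) ⊕ XC → G) =>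
      θ G (consC (fun k => w (Sum.inr k)) (fun a => w (Sum.inl a)))) := by
  refine h.subst _ ?_
  rintro ⟨i, k⟩
  induction i using Fin.cases with
  | zero => exact Tm.var _
  | succ i => exact Tm.var _

theorem exists_code_near {n : ℕ} (φ : OpForm (n + 1)) {R : ℝ} {r : ℕ} {G : Type u} [Group G]
    (hG : EC G) {x : Fin n → Op G} (hx : InB R x) (y : {y : Op G // y ∈ groupVN G ∧ ‖y‖ ≤ r})
    {ε : ℝ} (hε : 0 < ε) : ∃ d : XC → G, ‖cop d‖ ≤ r ∧
      |fv G φ (Fin.cons (cop d) x) - fv G φ (Fin.cons y.1 x)| ≤ ε := by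
  obtain ⟨δ, hδ, h⟩ := (good_fv φ (max R r)).2 ε hε
  obtain ⟨d, h1, h2⟩ := hG.exists_cop_near (groupVN_subset y.2.1) y.2.2 hδ
  exact ⟨d, h1, h G _ _ (hx.cons (span_le_Mcom (cop_mem d)) h1)
    (hx.cons (groupVN_subset y.2.1) y.2.2) ((Near.refl hδ.le x).cons h2.le)⟩

theorem ad_fv {n : ℕ} (φ : OpForm n) (R : ℝ) :
    AD (DomR.{u} n R) (fun G _ v => fv G φ (cops v)) := by
  induction φ generalizing R with
  | reTr t => exact (ad_term R t).1
  | imTr t => exact (ad_term R t).2
  | dist2 s t =>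
    have h := (ad_term.{u} R (.mul (.adj (.add s (.smul (-1) t))) (.add s (.smul (-1) t)))).1
    refine (AD.conn (κ := Unit) (fun w => √(w ())) (by fun_prop) (fun _ => h)).congr
      (fun G _ v => ?_)
    rw [fv, formVal_dist2, termVal_mul, termVal_adj, termVal_add, termVal_smul, neg_one_smul,
      sub_eq_add_neg]
  | conn k c φ ih => exact AD.conn c c.continuous (fun i => ih i R)
  | supB r φ ih =>
    obtain ⟨C, hC⟩ := (good_fv.{u} (.supB r φ) R).1
    obtain ⟨C', hC'⟩ := (good_fv.{u} φ (max R r)).1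
    refine ⟨⟨C, fun G _ v hv => hC G _ hv.inB⟩, fun p q hpq => ?_⟩
    obtain ⟨θ, h1, h2⟩ := (ih (max R r)).2 p q hpq
    refine ⟨fun G _ v => ∀ d : XC → G, ‖cop d‖ ≤ r → θ G (consC d v), Df.allT XC
      (((Df.norm_cop_le r).subst (fun G _ w k => w (Sum.inr k)) (fun _ => Tm.var _)).imp
        h1.consC), fun G _ hG v hv => ⟨fun h3 d hd => ?_, fun h3 => ?_⟩⟩
    · have := ball_nonempty G r
      have hb := (abs_ciSup_le (fun y : {y : Op G // y ∈ groupVN G ∧ ‖y‖ ≤ r} =>
        hC' G _ (hv.inB.cons (groupVN_subset y.2.1) y.2.2))).1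
      refine (h2 G hG _ (hv.cons hd)).1 ?_
      beta_reduce
      rw [cops_consC]
      exact (le_ciSup hb ⟨cop d, mem_groupVN_of_span (cop_mem d), hd⟩).trans h3
    · have := ball_nonempty G r
      refine ciSup_le fun y => le_of_forall_pos_le_add fun ε hε => ?_
      obtain ⟨d, hd, h4⟩ := exists_code_near φ hG hv.inB y hε
      have h5 := (h2 G hG _ (hv.cons hd)).2 (h3 d hd)
      beta_reduce at h5
      rw [cops_consC] at h5
      have := (abs_le.1 h4).1
      change fv G φ (Fin.cons y.1 (cops v)) ≤ _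
      linarith
  | infB r φ ih =>
    obtain ⟨C, hC⟩ := (good_fv.{u} (.infB r φ) R).1
    obtain ⟨C', hC'⟩ := (good_fv.{u} φ (max R r)).1
    refine ⟨⟨C, fun G _ v hv => hC G _ hv.inB⟩, fun p q hpq => ?_⟩
    obtain ⟨θ, h1, h2⟩ := (ih (max R r)).2 ((p + q) / 2) q (by linarith)
    refine ⟨fun G _ v => ∃ d : XC → G, ‖cop d‖ ≤ r ∧ θ G (consC d v), Df.exT XC
      (((Df.norm_cop_le r).subst (fun G _ w k => w (Sum.inr k)) (fun _ => Tm.var _)).and
        h1.consC), fun G _ hG v hv => ⟨fun h3 => ?_, ?_⟩⟩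
    · have := ball_nonempty G r
      have h4 : ⨅ y : {y : Op G // y ∈ groupVN G ∧ ‖y‖ ≤ r}, fv G φ (Fin.cons y.1 (cops v)) <
          p + (q - p) / 4 := lt_of_le_of_lt h3 (by linarith)
      obtain ⟨y, hy⟩ := exists_lt_of_ciInf_lt h4
      obtain ⟨d, hd, h5⟩ := exists_code_near φ hG hv.inB y (ε := (q - p) / 4) (by linarith)
      refine ⟨d, hd, (h2 G hG _ (hv.cons hd)).1 ?_⟩
      beta_reduce
      rw [cops_consC]
      have := (abs_le.1 h5).2
      linarith
    · rintro ⟨d, hd, h3⟩
      have := ball_nonempty G r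
      have hb := (abs_ciInf_le (fun y : {y : Op G // y ∈ groupVN G ∧ ‖y‖ ≤ r} =>
        hC' G _ (hv.inB.cons (groupVN_subset y.2.1) y.2.2))).1
      have h5 := (h2 G hG _ (hv.cons hd)).2 h3
      beta_reduce at h5
      rw [cops_consC] at h5
      exact (ciInf_le hb ⟨cop d, mem_groupVN_of_span (cop_mem d), hd⟩).trans h5

theorem fv_le {G H : Type u} [Group G] [Group H] (hG : IsInfGeneric G) (hH : IsInfGeneric H)
    (σ : OpForm 0) : fv H σ ![] ≤ fv G σ ![] := by
  refine le_of_forall_pos_le_add fun ε hε => ?_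
  obtain ⟨θ, h1, h2⟩ := (ad_fv.{u} σ 0).2 (fv G σ ![]) (fv G σ ![] + ε) (by linarith)
  have h3 := (h2 G hG.ec isEmptyElim (fun i => i.elim0)).1 (le_of_eq (by
    beta_reduce
    rw [Subsingleton.elim (cops _) ![]]))
  have h4 := (h2 H hH.ec isEmptyElim (fun i => i.elim0)).2 ((h1.transfer hG hH _ _).1 h3)
  beta_reduce at h4
  rwa [Subsingleton.elim (cops _) ![]] at h4

theorem main (G H : Type u) [Group G] [Group H] (hG : IsInfGeneric G) (hH : IsInfGeneric H)
    (σ : OpForm 0) : groupVal G σ = groupVal H σ :=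
  le_antisymm (fv_le hH hG σ) (fv_le hG hH σ)

end Pool.Agent.P.MP_6c8412_lc
end
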