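import Pool.Agent.K.MP_6c8412_lc.C0

set_option linter.unusedVariables false

namespace Pool.Agent.P.MP_6c8412_lc

open FirstOrder Language

universe u

theorem realize_up {G K : Type u} [Group G] [Group K] (f : G →* K) (hf : Function.Injective f)
    {α : Type} {φ : grpLang.Formula α} (h : BoundedFormula.IsExistential φ) {v : α → G}
    (hv : φ.Realize v) : φ.Realize (f ∘ v) := by
  have := h.realize_embedding (embOf f hf) hv
  rw [Unique.eq_default ((embOf f hf) ∘ default)] at this
  exact this

/-- All existential types over `G` realized somewhere are realized in `K`. -/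
def IsStep {G K : Type u} [Group G] [Group K] (f : G →* K) : Prop :=
  Function.Injective f ∧ ∀ (m n : ℕ) (a : Fin m → G) (p : Set (grpLang.Formula (Fin m ⊕ Fin n))),
    (∀ φ ∈ p, BoundedFormula.IsExistential φ) →
    ∀ (L : Type u) [Group L] (g : G →* L), Function.Injective g →
      (∃ x : Fin n → L, ∀ φ ∈ p, φ.Realize (Sum.elim (g ∘ a) x)) →
      ∃ y : Fin n → K, ∀ φ ∈ p, φ.Realize (Sum.elim (f ∘ a) y)

theorem exists_step (G : GrpCat.{u}) : ∃ (K : GrpCat.{u}) (f : G →* K), IsStep f := by
  let ι : Type u := {q : Σ (m n : ℕ), (Fin m → G) × Set (grpLang.Formula (Fin m ⊕ Fin n)) //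
    ∃ (L : GrpCat.{u}) (g : G →* L), Function.Injective g ∧
      ∃ x : Fin q.2.1 → L, ∀ φ ∈ q.2.2.2, φ.Realize (Sum.elim (g ∘ q.2.2.1) x)}
  choose L g hg x hx using fun q : ι => q.2
  refine ⟨GrpCat.of (Monoid.PushoutI g), Monoid.PushoutI.base g,
    Monoid.PushoutI.base_injective hg, fun m n a p hp M _ k hk hx' => ?_⟩
  let q : ι := ⟨⟨m, n, a, p⟩, GrpCat.of M, k, hk, hx'⟩
  refine ⟨Monoid.PushoutI.of (φ := g) q ∘ x q, fun φ hφ => ?_⟩
  have := realize_up _ (Monoid.PushoutI.of_injective hg q) (hp φ hφ) (hx q φ hφ)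
  have e : Monoid.PushoutI.of (φ := g) q ∘ Sum.elim (g q ∘ a) (x q) =
      Sum.elim (Monoid.PushoutI.base g ∘ a) (Monoid.PushoutI.of (φ := g) q ∘ x q) := by
    funext z
    cases z with
    | inl z => exact Monoid.PushoutI.of_apply_eq_base g q (a z)
    | inr z => rfl
  exact e ▸ this

/-- The chain of extensions. -/
noncomputable def chain (G : GrpCat.{u}) : ℕ → GrpCat.{u} :=
  fun n => Nat.rec G (fun _ K => (exists_step K).choose) n

/-- The maps of the chain. -/
noncomputable def chainStep (G : GrpCat.{u}) (n : ℕ) : chain G n →* chain G (n + 1) :=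
  (exists_step (chain G n)).choose_spec.choose

theorem chainStep_isStep (G : GrpCat.{u}) (n : ℕ) : IsStep (chainStep G n) :=
  (exists_step (chain G n)).choose_spec.choose_spec

/-- The transition maps of the chain. -/
noncomputable def chainMap (G : GrpCat.{u}) (i j : ℕ) (h : i ≤ j) : chain G i →* chain G j :=
  Nat.leRec (motive := fun j _ => chain G i →* chain G j) (MonoidHom.id _)
    (fun k _ g => (chainStep G k).comp g) h

theorem chainMap_self (G : GrpCat.{u}) (i : ℕ) : chainMap G i i le_rfl = MonoidHom.id _ :=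
  Nat.leRec_self _ _

theorem chainMap_succ (G : GrpCat.{u}) {i j : ℕ} (h : i ≤ j) (h' : i ≤ j + 1) :
    chainMap G i (j + 1) h' = (chainStep G j).comp (chainMap G i j h) :=
  Nat.leRec_succ _ _ h

instance chainSys (G : GrpCat.{u}) :
    DirectedSystem (fun n => (chain G n : Type u)) (chainMap G · · ·) where
  map_self i x := by rw [chainMap_self]; rfl
  map_map k j i hij hjk x := by
    induction k, hjk using Nat.le_induction with
    | base => rw [chainMap_self]; rfl
    | succ k hk ih =>
      rw [chainMap_succ G hk, chainMap_succ G (hij.trans hk), MonoidHom.comp_apply, ih]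
      rfl

theorem chainMap_injective (G : GrpCat.{u}) (i j : ℕ) (h : i ≤ j) :
    Function.Injective (chainMap G i j h) := by
  induction j, h using Nat.le_induction with
  | base => rw [chainMap_self]; exact fun _ _ h => h
  | succ k hk ih =>
    rw [chainMap_succ G hk]
    exact (chainStep_isStep G k).1.comp ih

theorem exists_exSaturated (G : Type u) [Group G] :
    ∃ (K : Type u) (_ : Group K) (f : G →* K), Function.Injective f ∧ IsExSaturated K := by
  let G0 := GrpCat.of G
  let K := DirectLimit (fun n => (chain G0 n : Type u)) (chainMap G0)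
  let j : ∀ n, chain G0 n →* K := fun n => MonoidHom.mk' (fun x => ⟦⟨n, x⟩⟧)
    (fun a b => (DirectLimit.mul_def (f := chainMap G0) n a b).symm)
  have hj : ∀ n, Function.Injective (j n) := fun n =>
    DirectLimit.mk_injective _ (chainMap_injective G0) n
  have hjs : ∀ n x, j (n + 1) (chainStep G0 n x) = j n x := fun n x => by
    have := DirectLimit.mk_apply (f := chainMap G0) n (n + 1) x (Nat.le_succ n)
    rw [chainMap_succ G0 le_rfl, chainMap_self] at this
    exact this
  refine ⟨K, inferInstance, j 0, hj 0, fun m n a p hp L _ f hf hx => ?_⟩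
  choose N b hb using fun i => DirectLimit.exists_eq_mk (chainMap G0) (a i)
  obtain ⟨M, hM⟩ := (Set.finite_range N).bddAbove
  have hM' : ∀ i, N i ≤ M := fun i => hM ⟨i, rfl⟩
  have ha : a = j M ∘ fun i => chainMap G0 _ _ (hM' i) (b i) :=
    funext fun i => (hb i).trans (DirectLimit.eq_of_le _ M (hM' i))
  obtain ⟨y, hy⟩ := (chainStep_isStep G0 M).2 m n (fun i => chainMap G0 _ _ (hM' i) (b i)) p hp L
    (f.comp (j M)) (hf.comp (hj M)) (by rw [ha] at hx; exact hx)
  refine ⟨j (M + 1) ∘ y, fun φ hφ => ?_⟩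
  have := realize_up _ (hj (M + 1)) (hp φ hφ) (hy φ hφ)
  have e : j (M + 1) ∘ Sum.elim (chainStep G0 M ∘ fun i => chainMap G0 _ _ (hM' i) (b i)) y =
      Sum.elim a (j (M + 1) ∘ y) := by
    funext z
    cases z with
    | inl z => rw [ha]; exact hjs M _
    | inr z => rfl
  exact e ▸ this

theorem card_grpLang : grpLang.card ≤ Cardinal.aleph0 := by
  have h1 : ∀ n, Countable (GrpSymb n) := fun n => by
    have : Subsingleton (GrpSymb n) := ⟨fun a b => by cases a <;> cases b <;> rfl⟩
    infer_instance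
  have h2 : Countable grpLang.Symbols :=
    inferInstanceAs (Countable ((Σ n, GrpSymb n) ⊕ (Σ _ : ℕ, Empty)))
  exact Cardinal.mk_le_aleph0

theorem exists_countable_generic {K : Type u} [Group K] (hK : IsExSaturated K) {s : Set K}
    (hs : s.Countable) : ∃ H : Subgroup K, s ⊆ H ∧ Countable H ∧ IsInfGeneric H := by
  have := hK.ec.infinite
  obtain ⟨S, h1, h2⟩ := exists_elementarySubstructure_card_eq grpLang s Cardinal.aleph0.{0} le_rfl
    (by simpa using hs.le_aleph0) (by simpa using card_grpLang) (by simp)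
  let H : Subgroup K :=
    { carrier := S
      one_mem' := S.toSubstructure.fun_mem GrpSymb.unit ![] (fun i => i.elim0)
      mul_mem' := fun {a b} ha hb => S.toSubstructure.fun_mem GrpSymb.product ![a, b] (by
        intro i
        fin_cases i
        · exact ha
        · exact hb)
      inv_mem' := fun {a} ha => S.toSubstructure.fun_mem GrpSymb.inverse ![a] (by
        intro i
        fin_cases i
        exact ha) }
  let e : H ≃[grpLang] S :=
    { toFun := fun x => ⟨x.1, x.2⟩
      invFun := fun x => ⟨x.1, x.2⟩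
      left_inv := fun _ => rfl
      right_inv := fun _ => rfl
      map_fun' := fun {n} f x => by cases f <;> rfl
      map_rel' := fun r => Empty.elim r }
  refine ⟨H, h1, ?_, K, inferInstance, hK, ⟨S.subtype.comp e.toElementaryEmbedding⟩⟩
  have h3 : Countable S := by
    rw [← Cardinal.mk_le_aleph0_iff]
    simpa using h2.le
  exact h3

theorem exists_triple (S : Set ℕ) : ∃ (K : Type u) (_ : Group K) (F s t : K),
    ∀ i : ℕ, dec F s (t ^ i) = 1 ↔ i ∈ S := by
  classical
  let A : Type u := ULift (Multiplicative (ZMod 2))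
  let a : ZMod 0 → A := fun z => if Int.toNat z ∈ S then 1 else ⟨Multiplicative.ofAdd 1⟩
  refine ⟨(ℤ × ZMod 0 → A) ⋊[mulAutArrow] Equiv.Perm (ℤ × ZMod 0), inferInstance,
    SemidirectProduct.inl (fun p => if 0 ≤ p.1 then a p.2 else 1), SemidirectProduct.inr (shS 0),
    SemidirectProduct.inr (shT 0), fun i => ?_⟩
  rw [dec_wreath, map_eq_one_iff _ SemidirectProduct.inl_injective, Pi.mulSingle_eq_one_iff]
  have : Int.toNat ((i : ZMod 0)) = i := rfl
  simp only [a, this]
  split_ifs with h
  · simp [h]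
  · simp only [h, iff_false]
    intro h1
    exact absurd (congrArg ULift.down h1) (by decide)

theorem main2 : ∃ (G H : Type u) (_ : Group G) (_ : Group H), Countable G ∧ Countable H ∧
    IsInfGeneric G ∧ IsInfGeneric H ∧ IsEmpty (G ≃* H) ∧
    ∀ σ : OpForm 0, groupVal G σ = groupVal H σ := by
  obtain ⟨K, _, -, -, hK⟩ := exists_exSaturated PUnit.{u + 1}
  obtain ⟨G, -, hG1, hG2⟩ := exists_countable_generic hK Set.countable_empty
  obtain ⟨e, he⟩ := exists_surjective_nat (G × G × G)
  obtain ⟨L, _, F, s, t, h⟩ := exists_triple.{u} {i | dec (e i).1 (e i).2.1 ((e i).2.2 ^ i) ≠ 1}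
  obtain ⟨M, _, f, hf, hM⟩ := exists_exSaturated L
  obtain ⟨H, h1, hH1, hH2⟩ := exists_countable_generic hM
    (Set.toFinite {f F, f s, f t}).countable
  refine ⟨G, H, inferInstance, inferInstance, hG1, hH1, hG2, hH2, ⟨fun φ => ?_⟩,
    main G H hG2 hH2⟩
  obtain ⟨i, hi⟩ := he (φ.symm ⟨f F, h1 (by simp)⟩, φ.symm ⟨f s, h1 (by simp)⟩,
    φ.symm ⟨f t, h1 (by simp)⟩)
  have h2 := h i
  rw [Set.mem_ofPred_eq, hi] at h2
  have h3 : (φ (dec (φ.symm ⟨f F, h1 (by simp)⟩) (φ.symm ⟨f s, h1 (by simp)⟩)
      (φ.symm ⟨f t, h1 (by simp)⟩ ^ i)) : M) = f (dec F s (t ^ i)) := by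
    simp [dec]
  rw [← map_eq_one_iff f hf, ← h3, OneMemClass.coe_eq_one, map_eq_one_iff φ φ.injective] at h2
  exact iff_not_self h2

end Pool.Agent.P.MP_6c8412_lc
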